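import Pool.Agent.N809.DA.Bounds

/-!
# Numerical bounds for exponentials
-/

set_option autoImplicit false

namespace Pool.Agent.N809.DA

open scoped Real

lemma exp_neg_le {a f : ℝ} (k : ℕ) (hf : 0 ≤ f) (h : (k : ℝ) + f ≤ a) :
    Real.exp (-a) ≤ 1 / ((2.7182818283 : ℝ) ^ k * (1 + f + f ^ 2 / 2)) := by
  rw [Real.exp_neg, ← one_div]
  apply one_div_le_one_div_of_le (by positivity)
  have h1 : (2.7182818283 : ℝ) ^ k ≤ Real.exp k := by
    rw [← Real.exp_one_pow]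
    exact pow_le_pow_left₀ (by norm_num) Real.exp_one_gt_d9.le k
  have h2 : 1 + f + f ^ 2 / 2 ≤ Real.exp f := Real.quadratic_le_exp_of_nonneg hf
  calc (2.7182818283 : ℝ) ^ k * (1 + f + f ^ 2 / 2) ≤ Real.exp k * Real.exp f := by
        gcongr
    _ = Real.exp (k + f) := by rw [Real.exp_add]
    _ ≤ Real.exp a := Real.exp_le_exp.2 h

lemma e065 {u : ℝ} (hu : 0.65 ≤ u) : Real.exp (-(2 * π * u)) ≤ 0.017 := by
  have hpi := Real.pi_gt_d6
  refine (exp_neg_le (f := 0.084) 4 (by norm_num) (by push_cast; nlinarith)).trans (by norm_num)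

lemma e08 {u : ℝ} (hu : 0.8 ≤ u) : Real.exp (-(2 * π * u)) ≤ 0.0066 := by
  have hpi := Real.pi_gt_d6
  refine (exp_neg_le (f := 0.0265) 5 (by norm_num) (by push_cast; nlinarith)).trans (by norm_num)

lemma e12 {u : ℝ} (hu : 1.2 ≤ u) : Real.exp (-(2 * π * u)) ≤ 0.00055 := by
  have hpi := Real.pi_gt_d6
  refine (exp_neg_le (f := 0.539) 7 (by norm_num) (by push_cast; nlinarith)).trans (by norm_num)

lemma e16 {u : ℝ} (hu : 1.6 ≤ u) : Real.exp (-(2 * π * u)) ≤ 0.000044 := by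
  have hpi := Real.pi_gt_d6
  refine (exp_neg_le (f := 0.053) 10 (by norm_num) (by push_cast; nlinarith)).trans (by norm_num)

lemma e1738 {u : ℝ} (hu : 1.738 ≤ u) : Real.exp (-(2 * π * u)) ≤ 0.0000195 := by
  have hpi := Real.pi_gt_d6
  refine (exp_neg_le (f := 0.92) 10 (by norm_num) (by push_cast; nlinarith)).trans (by norm_num)

lemma e173 {u : ℝ} (hu : 1.73 ≤ u) : Real.exp (-(2 * π * u)) ≤ 0.0000205 := by
  have hpi := Real.pi_gt_d6
  refine (exp_neg_le (f := 0.869) 10 (by norm_num) (by push_cast; nlinarith)).trans (by norm_num)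

lemma e172 {u : ℝ} (hu : 1.72 ≤ u) : Real.exp (-(2 * π * u)) ≤ 0.000022 := by
  have hpi := Real.pi_gt_d6
  refine (exp_neg_le (f := 0.807) 10 (by norm_num) (by push_cast; nlinarith)).trans (by norm_num)

lemma e154 {u : ℝ} (hu : 1.538 ≤ u) : Real.exp (-(2 * π * u)) ≤ 0.00009 := by
  have hpi := Real.pi_gt_d6
  refine (exp_neg_le (f := 0.66) 9 (by norm_num) (by push_cast; nlinarith)).trans (by norm_num)

/-- `x e^{-m x}` is decreasing for `x ≥ 1 / m` -/
lemma mul_exp_le {X X₀ m : ℝ} (hX₀ : 0 < X₀) (hm : 1 ≤ m * X₀) (hX : X₀ ≤ X) :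
    X * Real.exp (-(m * X)) ≤ X₀ * Real.exp (-(m * X₀)) := by
  have hm0 : 0 < m := by
    by_contra h
    push Not at h
    nlinarith
  have h1 : Real.exp (-(m * X)) = Real.exp (-(m * X₀)) * Real.exp (-(m * (X - X₀))) := by
    rw [← Real.exp_add]
    congr 1
    ring
  have h2 : X ≤ X₀ * Real.exp (m * (X - X₀)) := by
    have h3 := Real.add_one_le_exp (m * (X - X₀))
    have h4 : X₀ * (m * (X - X₀) + 1) ≤ X₀ * Real.exp (m * (X - X₀)) := by gcongr
    nlinarith [mul_nonneg (by linarith : 0 ≤ m * X₀ - 1) (by linarith : 0 ≤ X - X₀)]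
  rw [h1]
  have h5 : Real.exp (-(m * (X - X₀))) * Real.exp (m * (X - X₀)) = 1 := by
    rw [← Real.exp_add]
    simp
  have h6 := Real.exp_pos (-(m * X₀))
  have h7 := Real.exp_pos (-(m * (X - X₀)))
  calc X * (Real.exp (-(m * X₀)) * Real.exp (-(m * (X - X₀))))
      ≤ (X₀ * Real.exp (m * (X - X₀))) * (Real.exp (-(m * X₀)) * Real.exp (-(m * (X - X₀)))) := by
        gcongr
    _ = X₀ * Real.exp (-(m * X₀)) * (Real.exp (-(m * (X - X₀))) * Real.exp (m * (X - X₀))) := by ring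
    _ = _ := by rw [h5, mul_one]

/-- `X e^{-2 π (0.99 X)}` for `X ≥ 1.738` -/
lemma X_exp_le {X : ℝ} (hX : 1.738 ≤ X) : X * Real.exp (-(2 * π * (0.99 * X))) ≤ 0.000037 := by
  have hpi := Real.pi_gt_d6
  have h := mul_exp_le (X := X) (X₀ := 1.738) (m := 2 * π * 0.99) (by norm_num) (by nlinarith) hX
  have e : 2 * π * (0.99 * X) = 2 * π * 0.99 * X := by ring
  rw [e]
  refine h.trans ?_
  have h2 : Real.exp (-(2 * π * 0.99 * 1.738)) ≤ 0.0000212 + 0.0000000200 :=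
    (exp_neg_le (f := 0.8109) 10 (by norm_num) (by push_cast; nlinarith)).trans (by norm_num)
  nlinarith

/-- `X² e^{-2 π X}` for `X ≥ 1.73` -/
lemma X_sq_exp_le {X : ℝ} (hX : 1.73 ≤ X) : X ^ 2 * Real.exp (-(2 * π * X)) ≤ 0.0000616 := by
  have hpi := Real.pi_gt_d6
  have h := mul_exp_le (X := X) (X₀ := 1.73) (m := π) (by norm_num) (by nlinarith) hX
  have e : X ^ 2 * Real.exp (-(2 * π * X)) = (X * Real.exp (-(π * X))) ^ 2 := by
    rw [mul_pow, ← Real.exp_nat_mul]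
    congr 2
    push_cast
    ring
  rw [e]
  have h0 : 0 ≤ X * Real.exp (-(π * X)) := by
    have := Real.exp_pos (-(π * X))
    have : 0 ≤ X := by linarith
    positivity
  have h3 : (1.73 * Real.exp (-(π * 1.73))) ^ 2 ≤ 0.0000616 := by
    rw [mul_pow, ← Real.exp_nat_mul]
    have h4 : ((2 : ℕ) : ℝ) * -(π * 1.73) = -(2 * π * 1.73) := by
      push_cast
      ring
    rw [h4]
    have := e173 (u := 1.73) le_rfl
    nlinarith
  exact (pow_le_pow_left₀ h0 h 2).trans h3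

end Pool.Agent.N809.DA
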