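import Pool.Agent.N809.DA.Gen

/-!
# D'Arcais polynomials at `i t` modulo primes `p ≡ 3 (mod 4)`
-/

set_option autoImplicit false

namespace Pool.Agent.N809.DA

open Complex Finset
open scoped ArithmeticFunction.sigma

/-- `n!` times the `n`-th D'Arcais polynomial at `x`, in any commutative ring -/
noncomputable def av {S : Type*} [CommRing S] (x : S) : ℕ → S
  | 0 => 1
  | n + 1 => x * ∑ k : Fin (n + 1), ((σ 1 ((k : ℕ) + 1) * n.descFactorial k : ℕ) : S) * av x (n - k)

lemma av_zero {S : Type*} [CommRing S] (x : S) : av x 0 = 1 := by rw [av]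

lemma av_succ {S : Type*} [CommRing S] (x : S) (n : ℕ) :
    av x (n + 1) = x * ∑ k ∈ range (n + 1),
      ((σ 1 (k + 1) * n.descFactorial k : ℕ) : S) * av x (n - k) := by
  rw [av, Finset.sum_range (fun k => ((σ 1 (k + 1) * n.descFactorial k : ℕ) : S) * av x (n - k))]

lemma av_map {S T : Type*} [CommRing S] [CommRing T] (f : S →+* T) (x : S) (n : ℕ) :
    f (av x n) = av (f x) n := by
  induction n using Nat.strong_induction_on with
  | _ n ih =>
    cases n with
    | zero => rw [av_zero, av_zero, map_one]
    | succ n =>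
      rw [av_succ, av_succ, map_mul, map_sum]
      congr 1
      refine sum_congr rfl fun k _ => ?_
      rw [map_mul, map_natCast, ih (n - k) (by omega)]

lemma av_eq_pv (x : ℂ) (n : ℕ) : av x n = (n.factorial : ℂ) * pv x n := by
  induction n using Nat.strong_induction_on with
  | _ n ih =>
    cases n with
    | zero => simp [av_zero, pv_zero]
    | succ n =>
      rw [av_succ, Nat.factorial_succ]
      push_cast
      rw [mul_assoc, mul_comm (n.factorial : ℂ), ← mul_assoc, pv_succ, mul_assoc, sum_mul]
      congr 1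
      refine sum_congr rfl fun k hk => ?_
      rw [mem_range] at hk
      rw [ih (n - k) (by omega)]
      have h : (n.factorial : ℂ) = ((n - k).factorial : ℂ) * (n.descFactorial k : ℂ) := by
        exact_mod_cast (Nat.factorial_mul_descFactorial (by omega : k ≤ n)).symm
      rw [h]
      ring

/-! ### Periodicity modulo `p` -/

lemma descFactorial_mod {S : Type*} [CommRing S] (p : ℕ) [CharP S p] (_hp : 0 < p) (m r : ℕ)
    (_hr : r < p) (k : ℕ) : ((p * m + r).descFactorial k : S) = (r.descFactorial k : S) := by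
  induction k with
  | zero => simp
  | succ k ih =>
    rw [Nat.descFactorial_succ, Nat.descFactorial_succ]
    push_cast
    rw [ih]
    by_cases h : k ≤ r
    · have h1 : p * m + r - k = p * m + (r - k) := by omega
      rw [h1]
      push_cast
      rw [CharP.cast_eq_zero S p]
      ring
    · have h2 : (r.descFactorial k : S) = 0 := by
        rw [Nat.descFactorial_of_lt (by omega)]
        simp
      rw [h2, mul_zero, mul_zero]

lemma av_period {S : Type*} [CommRing S] (p : ℕ) [CharP S p] (hp : 0 < p) (x : S) (m : ℕ) :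
    ∀ s, s ≤ p → av x (p * m + s) = av x (p * m) * av x s := by
  intro s
  induction s using Nat.strong_induction_on with
  | _ s ih =>
    intro hs
    cases s with
    | zero => rw [av_zero, mul_one, add_zero]
    | succ r =>
      rw [← add_assoc, av_succ, av_succ x r]
      have h1 : ∑ k ∈ range (p * m + r + 1),
          ((σ 1 (k + 1) * (p * m + r).descFactorial k : ℕ) : S) * av x (p * m + r - k) =
          ∑ k ∈ range (r + 1), ((σ 1 (k + 1) * r.descFactorial k : ℕ) : S) * av x (p * m + r - k) := by
        have hsub : range (r + 1) ⊆ range (p * m + r + 1) := by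
          intro k hk
          rw [mem_range] at hk ⊢
          have : 0 ≤ p * m := Nat.zero_le _
          omega
        rw [← sum_subset hsub]
        · refine sum_congr rfl fun k _ => ?_
          push_cast
          rw [descFactorial_mod p hp m r (by omega)]
        · intro k _ hk
          rw [mem_range] at hk
          push_cast
          rw [descFactorial_mod p hp m r (by omega), Nat.descFactorial_of_lt (by omega : r < k)]
          simp
      rw [h1]
      have h2 : ∀ k ∈ range (r + 1), ((σ 1 (k + 1) * r.descFactorial k : ℕ) : S) * av x (p * m + r - k) =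
          av x (p * m) * (((σ 1 (k + 1) * r.descFactorial k : ℕ) : S) * av x (r - k)) := by
        intro k hk
        rw [mem_range] at hk
        rw [show p * m + r - k = p * m + (r - k) by omega, ih (r - k) (by omega) (by omega)]
        ring
      rw [sum_congr rfl h2, ← mul_sum]
      ring

lemma av_period' {S : Type*} [CommRing S] (p : ℕ) [CharP S p] (hp : 0 < p) (x : S) (m s : ℕ)
    (hs : s ≤ p) : av x (p * m + s) = av x p ^ m * av x s := by
  have h : ∀ m, av x (p * m) = av x p ^ m := by
    intro m
    induction m with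
    | zero => rw [mul_zero, av_zero, pow_zero]
    | succ m ih =>
      rw [mul_add, mul_one, av_period p hp x m p le_rfl, ih, pow_succ]
  rw [av_period p hp x m s hs, h]

lemma av_ne_zero_of {S : Type*} [CommRing S] [IsDomain S] (p : ℕ) [CharP S p] (hp : 0 < p) (x : S)
    (h : ∀ s, 1 ≤ s → s ≤ p → av x s ≠ 0) (n : ℕ) : av x n ≠ 0 := by
  rw [← Nat.div_add_mod n p, av_period' p hp x _ _ (Nat.mod_lt n hp).le]
  refine mul_ne_zero (pow_ne_zero _ (h p (by omega) le_rfl)) ?_
  rcases Nat.eq_zero_or_pos (n % p) with h0 | h0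
  · rw [h0, av_zero]
    exact one_ne_zero
  · exact h _ h0 (Nat.mod_lt n hp).le

/-! ### Computation -/

/-- computable sum of divisors -/
def sg (n : ℕ) : ℕ := ((List.range (n + 1)).filter (fun d => 0 < d ∧ n % d = 0)).sum

lemma sg_eq (n : ℕ) (hn : 0 < n) : sg n = σ 1 n := by
  rw [ArithmeticFunction.sigma_one_apply]
  unfold sg
  have h1 : n.divisors = (List.toFinset ((List.range (n + 1)).filter (fun d => 0 < d ∧ n % d = 0))) := by
    ext d
    simp only [Nat.mem_divisors, List.mem_toFinset, List.mem_filter, List.mem_range, decide_eq_true_eq]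
    constructor
    · rintro ⟨hd, _⟩
      exact ⟨Nat.lt_succ_of_le (Nat.le_of_dvd hn hd), Nat.pos_of_dvd_of_pos hd hn, Nat.mod_eq_zero_of_dvd hd⟩
    · rintro ⟨_, _, h⟩
      exact ⟨Nat.dvd_of_mod_eq_zero h, hn.ne'⟩
  rw [h1, List.sum_toFinset _ (List.Nodup.filter _ List.nodup_range)]
  simp

/-- computable version: dot product with the list of the previous values -/
def dot {S : Type*} [CommRing S] : List S → ℕ → ℕ → ℕ → S
  | [], _, _, _ => 0
  | a :: L, f, m, k => ((sg (k + 1) * f : ℕ) : S) * a + dot L (f * m) (m - 1) (k + 1)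

/-- the list `[av x n, ..., av x 0]` -/
def tab {S : Type*} [CommRing S] (x : S) : ℕ → List S
  | 0 => [1]
  | n + 1 => (x * dot (tab x n) 1 n 0) :: tab x n

lemma dot_eq {S : Type*} [CommRing S] (x : S) (n : ℕ) : ∀ (j k : ℕ), j + k = n + 1 →
    ∀ L : List S, L = (List.range j).reverse.map (av x) →
    dot L (n.descFactorial k) (n - k) k =
      ∑ l ∈ Finset.Ico k (n + 1), ((σ 1 (l + 1) * n.descFactorial l : ℕ) : S) * av x (n - l) := by
  intro j
  induction j with
  | zero =>
    intro k hk L hL
    subst hL
    have : k = n + 1 := by omega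
    subst this
    simp [dot]
  | succ j ih =>
    intro k hk L hL
    subst hL
    rw [List.range_succ, List.reverse_append]
    simp only [List.reverse_cons, List.reverse_nil, List.nil_append, List.cons_append, List.map_cons]
    rw [dot, Finset.sum_eq_sum_Ico_succ_bot (by omega : k < n + 1)]
    congr 1
    · rw [sg_eq _ (by omega), show j = n - k by omega]
    · have h := ih (k + 1) (by omega) _ rfl
      rw [← h, Nat.descFactorial_succ, mul_comm, show n - (k + 1) = n - k - 1 by omega]

lemma tab_eq {S : Type*} [CommRing S] (x : S) (n : ℕ) :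
    tab x n = (List.range (n + 1)).reverse.map (av x) := by
  induction n with
  | zero => simp [tab, av_zero]
  | succ n ih =>
    rw [tab, List.range_succ, List.reverse_append]
    simp only [List.reverse_cons, List.reverse_nil, List.nil_append, List.cons_append, List.map_cons]
    rw [← ih, av_succ]
    congr 2
    have h := dot_eq x n (n + 1) 0 (by omega) (tab x n) ih
    rw [Nat.descFactorial_zero, Nat.sub_zero] at h
    rw [h, Finset.range_eq_Ico]

/-- the check for a prime `p` -/
def check (p : ℕ) : Bool :=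
  (List.range (p - 1)).all fun t =>
    (tab (⟨0, (t : ℤ) + 1⟩ : GaussianInt) p).all fun a => !(a.re % p == 0 && a.im % p == 0)

lemma dvd_iff (p : ℕ) (z : GaussianInt) : ((p : ℕ) : GaussianInt) ∣ z ↔ (p : ℤ) ∣ z.re ∧ (p : ℤ) ∣ z.im := by
  have := Zsqrtd.intCast_dvd (p : ℤ) z
  rw [← this]
  norm_cast

lemma check_spec {p : ℕ} (hp : p.Prime) (h3 : p % 4 = 3) (hc : check p = true) (t : ℤ)
    (ht : ¬ (p : ℤ) ∣ t) (n : ℕ) : ¬ ((p : ℕ) : GaussianInt) ∣ av (⟨0, t⟩ : GaussianInt) n := by
  have : Fact p.Prime := ⟨hp⟩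
  have hprime : Prime ((p : ℕ) : GaussianInt) := GaussianInt.prime_of_nat_prime_of_mod_four_eq_three p h3
  set Q := GaussianInt ⧸ Ideal.span {((p : ℕ) : GaussianInt)} with hQ
  have hmax : (Ideal.span {((p : ℕ) : GaussianInt)}).IsPrime := by
    rw [Ideal.span_singleton_prime hprime.ne_zero]
    exact hprime
  have : IsDomain Q := Ideal.Quotient.isDomain _
  set φ : GaussianInt →+* Q := Ideal.Quotient.mk _ with hφ
  have hker : ∀ z, φ z = 0 ↔ ((p : ℕ) : GaussianInt) ∣ z := by
    intro z
    rw [hφ, Ideal.Quotient.eq_zero_iff_mem, Ideal.mem_span_singleton]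
  have hchar : CharP Q p := by
    have hp0 : ((p : ℕ) : Q) = 0 := by
      have := (hker ((p : ℕ) : GaussianInt)).2 dvd_rfl
      rwa [map_natCast] at this
    exact ringChar.of_eq (CharP.ringChar_of_prime_eq_zero hp hp0)
  have hpZ : (0 : ℤ) < p := by exact_mod_cast hp.pos
  set t' : ℤ := t % p with ht'
  have h1 : 0 ≤ t' := Int.emod_nonneg t hpZ.ne'
  have h2 : t' < p := Int.emod_lt_of_pos t hpZ
  have h0 : t' ≠ 0 := fun h => ht (Int.dvd_of_emod_eq_zero h)
  have hφt : φ (⟨0, t⟩ : GaussianInt) = φ ⟨0, t'⟩ := by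
    rw [← sub_eq_zero, ← map_sub, hker, dvd_iff]
    constructor
    · simp
    · show (p : ℤ) ∣ t - t'
      rw [ht']
      exact Int.dvd_self_sub_emod
  rw [← hker, av_map, hφt]
  refine av_ne_zero_of p hp.pos _ (fun s hs1 hs2 => ?_) n
  rw [← av_map, Ne, hker, dvd_iff]
  have h3 := List.all_eq_true.1 hc (t' - 1).toNat (by
    rw [List.mem_range]
    omega)
  have h4 := List.all_eq_true.1 h3 (av (⟨0, t'⟩ : GaussianInt) s) (by
    rw [tab_eq]
    have e : (((t' - 1).toNat : ℕ) : ℤ) + 1 = t' := by omega
    rw [e]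
    simp only [List.mem_map, List.mem_reverse, List.mem_range]
    exact ⟨s, by omega, rfl⟩)
  rintro ⟨h5, h6⟩
  rw [Int.emod_eq_zero_of_dvd h5, Int.emod_eq_zero_of_dvd h6] at h4
  simp at h4

/-- `i t` as a Gaussian integer -/
theorem pv_ne_zero_of_check {p : ℕ} (hp : p.Prime) (h3 : p % 4 = 3) (hc : check p = true) (t : ℤ)
    (ht : ¬ (p : ℤ) ∣ t) (n : ℕ) : pv (I * (t : ℂ)) n ≠ 0 := by
  intro h
  have h1 : av (I * (t : ℂ)) n = 0 := by rw [av_eq_pv, h, mul_zero]
  have h2 : GaussianInt.toComplex (av (⟨0, t⟩ : GaussianInt) n) = 0 := by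
    rw [av_map]
    have : GaussianInt.toComplex (⟨0, t⟩ : GaussianInt) = I * (t : ℂ) := by
      rw [GaussianInt.toComplex_def₂]
      apply Complex.ext <;> simp
    rw [this, h1]
  rw [GaussianInt.toComplex_eq_zero] at h2
  apply check_spec hp h3 hc t ht n
  rw [h2]
  exact dvd_zero _

set_option maxRecDepth 100000 in
lemma check11 : check 11 = true := by decide +kernel

set_option maxRecDepth 100000 in
lemma check19 : check 19 = true := by decide +kernel

end Pool.Agent.N809.DA
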