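import Mathlib

/-!
# A Laplace estimate on a window
-/

set_option autoImplicit false

namespace Pool.Agent.N809.DA

open Complex Filter Topology MeasureTheory
open scoped Real

lemma norm_gauss {a : ℂ} (τ : ℝ) : ‖cexp (-(a / 2) * (τ : ℂ) ^ 2)‖ = Real.exp (-(a.re / 2) * τ ^ 2) := by
  rw [Complex.norm_exp]
  congr 1
  have : (-(a / 2) * (τ : ℂ) ^ 2) = ((τ ^ 2 : ℝ) : ℂ) * (-(a / 2)) := by push_cast; ring
  rw [this, Complex.re_ofReal_mul, Complex.neg_re]
  have h2 : (a / 2).re = a.re / 2 := by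
    have : (a / 2 : ℂ) = a / ((2 : ℝ) : ℂ) := by norm_num
    rw [this, Complex.div_ofReal_re]
  rw [h2]
  ring

lemma e_inv_le : Real.exp (-1) ≤ 0.3679 := by
  rw [Real.exp_neg]
  have := Real.exp_one_gt_d9
  rw [inv_le_comm₀ (Real.exp_pos 1) (by norm_num)]
  norm_num at this ⊢
  linarith

lemma e8_le : Real.exp (-8) ≤ 0.0004 := by
  have h : Real.exp (-8) = Real.exp (-1) ^ 8 := by
    rw [← Real.exp_nat_mul]
    norm_num
  rw [h]
  calc Real.exp (-1) ^ 8 ≤ 0.3679 ^ 8 := by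
        have := e_inv_le
        have := Real.exp_pos (-1)
        gcongr
    _ ≤ 0.0004 := by norm_num

lemma exp_err {R G : ℂ} {ρ : ℝ} (hG : ‖G‖ = Real.exp (-(4 * ρ))) (hR : ‖R‖ ≤ ρ) :
    ‖G * cexp R - G‖ ≤ Real.exp (-1) * Real.exp (-(2 * ρ)) := by
  have hρ : 0 ≤ ρ := (norm_nonneg _).trans hR
  have h1 := Complex.norm_exp_sub_sum_le_norm_mul_exp R 1
  simp only [Finset.range_one, Finset.sum_singleton, pow_zero, Nat.factorial_zero, Nat.cast_one, div_one,
    pow_one] at h1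
  have e : G * cexp R - G = G * (cexp R - 1) := by ring
  rw [e, norm_mul, hG]
  have h2 : ρ ≤ Real.exp (ρ - 1) := by
    have := Real.add_one_le_exp (ρ - 1)
    linarith
  calc Real.exp (-(4 * ρ)) * ‖cexp R - 1‖ ≤ Real.exp (-(4 * ρ)) * (Real.exp (ρ - 1) * Real.exp ρ) := by
        gcongr
        refine h1.trans ?_
        gcongr
        exact hR.trans h2
    _ = Real.exp (-1) * Real.exp (-(2 * ρ)) := by
        rw [← Real.exp_add, ← Real.exp_add, ← Real.exp_add]
        congr 1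
        ring

theorem window_integral {a : ℂ} {A d : ℝ} (hA : 0 < A) (haA : a.re = A) (ha : ‖a‖ ≤ 5 / 3 * A)
    (hd : 0 < d) (hAd : 32 ≤ A * d ^ 2) {F R : ℝ → ℂ} (hF : Continuous F)
    (hFR : ∀ τ : ℝ, |τ| ≤ d → F τ = cexp (-(a / 2) * (τ : ℂ) ^ 2) * cexp (R τ))
    (hR : ∀ τ : ℝ, |τ| ≤ d → ‖R τ‖ ≤ A / 8 * τ ^ 2) :
    0.35 * √(π / A) ≤ ‖∫ τ in (-d)..d, F τ‖ := by
  set G : ℝ → ℂ := fun τ => cexp (-(a / 2) * (τ : ℂ) ^ 2) with hGdef
  have hre : 0 < (a / 2).re := by
    have : (a / 2 : ℂ) = a / ((2 : ℝ) : ℂ) := by norm_num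
    rw [this, Complex.div_ofReal_re, haA]
    positivity
  have hGc : Continuous G := by fun_prop
  have hGi : Integrable G := integrable_cexp_neg_mul_sq hre
  have hgi : Integrable (fun τ : ℝ => Real.exp (-(A / 4) * τ ^ 2)) :=
    integrable_exp_neg_mul_sq (by positivity)
  have hgI : ∫ τ : ℝ, Real.exp (-(A / 4) * τ ^ 2) = 2 * √(π / A) := by
    rw [integral_gaussian]
    have : π / (A / 4) = 2 ^ 2 * (π / A) := by field_simp; norm_num
    rw [this, Real.sqrt_mul (by positivity), Real.sqrt_sq (by norm_num)]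
  have hnG : ∀ τ, ‖G τ‖ = Real.exp (-(A / 2) * τ ^ 2) := by
    intro τ
    rw [hGdef, norm_gauss, haA]
  -- the error in the window
  have h1 : ‖∫ τ in (-d)..d, (F τ - G τ)‖ ≤ 0.3679 * (2 * √(π / A)) := by
    have h2 : ‖∫ τ in (-d)..d, (F τ - G τ)‖ ≤
        ∫ τ in (-d)..d, Real.exp (-1) * Real.exp (-(A / 4) * τ ^ 2) := by
      apply intervalIntegral.norm_integral_le_of_norm_le (by linarith)
      · refine Eventually.of_forall fun τ hτ => ?_
        have hτ' : |τ| ≤ d := abs_le.2 ⟨hτ.1.le, hτ.2⟩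
        rw [hFR τ hτ']
        have h3 := exp_err (G := G τ) (R := R τ) (ρ := A / 8 * τ ^ 2) (by
          rw [hnG]; congr 1; ring) (hR τ hτ')
        refine h3.trans (le_of_eq ?_)
        congr 2
        ring
      · exact (hgi.const_mul _).intervalIntegrable
    refine h2.trans ?_
    rw [intervalIntegral.integral_of_le (by linarith), integral_const_mul]
    have h3 : ∫ τ in Set.Ioc (-d) d, Real.exp (-(A / 4) * τ ^ 2) ≤ 2 * √(π / A) := by
      rw [← hgI]
      exact setIntegral_le_integral hgi (Eventually.of_forall fun τ => (Real.exp_pos _).le)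
    have h4 := e_inv_le
    gcongr
  -- the tail
  have h2 : ‖∫ τ in (Set.Ioc (-d) d)ᶜ, G τ‖ ≤ 0.0004 * (2 * √(π / A)) := by
    have h3 : ‖∫ τ in (Set.Ioc (-d) d)ᶜ, G τ‖ ≤
        ∫ τ in (Set.Ioc (-d) d)ᶜ, Real.exp (-8) * Real.exp (-(A / 4) * τ ^ 2) := by
      apply norm_integral_le_of_norm_le (hgi.const_mul _).integrableOn
      refine (ae_restrict_iff' measurableSet_Ioc.compl).2 (Eventually.of_forall fun τ hτ => ?_)
      rw [hnG]
      have hτ2 : d ^ 2 ≤ τ ^ 2 := by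
        rw [Set.mem_compl_iff, Set.mem_Ioc, not_and_or] at hτ
        rcases hτ with h | h
        · push Not at h
          nlinarith
        · push Not at h
          nlinarith
      rw [← Real.exp_add]
      apply Real.exp_le_exp.2
      nlinarith
    refine h3.trans ?_
    rw [integral_const_mul]
    have h4 : ∫ τ in (Set.Ioc (-d) d)ᶜ, Real.exp (-(A / 4) * τ ^ 2) ≤ 2 * √(π / A) := by
      rw [← hgI]
      exact setIntegral_le_integral hgi (Eventually.of_forall fun τ => (Real.exp_pos _).le)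
    have h5 := e8_le
    gcongr
  -- the main term
  have h3 : 1.095 * √(π / A) ≤ ‖∫ τ, G τ‖ := by
    have h4 : (∫ τ : ℝ, G τ) = (π / (a / 2)) ^ (1 / 2 : ℂ) := integral_gaussian_complex hre
    have h5 : (1 / 2 : ℂ) = ((1 / 2 : ℝ) : ℂ) := by push_cast; rfl
    rw [h4, h5, Complex.norm_cpow_real, ← Real.sqrt_eq_rpow]
    have ha0 : 0 < ‖a‖ := by
      have := Complex.abs_re_le_norm a
      rw [haA, abs_of_pos hA] at this
      linarith
    have h6 : ‖(π / (a / 2) : ℂ)‖ = 2 * π / ‖a‖ := by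
      rw [norm_div, norm_div, Complex.norm_real, Real.norm_of_nonneg Real.pi_pos.le]
      have : ‖(2 : ℂ)‖ = 2 := by simp
      rw [this]
      field_simp
    rw [h6]
    apply Real.le_sqrt_of_sq_le
    rw [mul_pow, Real.sq_sqrt (by positivity)]
    rw [← mul_div_assoc, div_le_div_iff₀ hA ha0]
    have := Real.pi_pos
    calc 1.095 ^ 2 * π * ‖a‖ ≤ 1.095 ^ 2 * π * (5 / 3 * A) := by gcongr
      _ = (1.095 ^ 2 * (5 / 3)) * (π * A) := by ring
      _ ≤ 2 * (π * A) := by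
          gcongr
          norm_num
      _ = 2 * π * A := by ring
  -- conclusion
  have h4 : (∫ τ in (-d)..d, F τ) = (∫ τ, G τ) - (∫ τ in (Set.Ioc (-d) d)ᶜ, G τ) +
      ∫ τ in (-d)..d, (F τ - G τ) := by
    rw [intervalIntegral.integral_sub (hF.intervalIntegrable _ _) (hGc.intervalIntegrable _ _)]
    have h5 := integral_add_compl (s := Set.Ioc (-d) d) measurableSet_Ioc hGi
    rw [← h5, intervalIntegral.integral_of_le (f := G) (by linarith)]
    ring
  rw [h4]
  have h5 := norm_sub_le_norm_add ((∫ τ, G τ) - (∫ τ in (Set.Ioc (-d) d)ᶜ, G τ))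
    (∫ τ in (-d)..d, (F τ - G τ))
  have h6 := norm_sub_norm_le (∫ τ, G τ) (∫ τ in (Set.Ioc (-d) d)ᶜ, G τ)
  have h7 : 0 ≤ √(π / A) := Real.sqrt_nonneg _
  linarith

end Pool.Agent.N809.DA
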