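import Pool.Agent.N809.DA.Global
import Pool.Agent.N809.DA.Laplace

/-!
# Non-vanishing on the imaginary axis for large `t`
-/

set_option autoImplicit false

namespace Pool.Agent.N809.DA

open Complex Finset Filter Topology MeasureTheory
open scoped Real ComplexConjugate

lemma hasDerivAt_NN (x : ℂ) (n : ℕ) {w : ℂ} (hw : 0 < w.re) :
    HasDerivAt (NN x n) (x * (-(2 * π * EE w)) + 2 * π * n) w := by
  unfold NN
  have h1 := (hasDerivAt_Psi hw).const_mul x
  have h2 : HasDerivAt (fun w : ℂ => 2 * π * n * w) (2 * π * n) w := by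
    simpa using (hasDerivAt_id w).const_mul (2 * π * n : ℂ)
  exact h1.add h2

lemma NN_continuous (x : ℂ) (n : ℕ) {y : ℝ} (hy : 0 < y) :
    Continuous (fun ξ : ℝ => NN x n ((y : ℂ) + ξ * I)) := by
  rw [continuous_iff_continuousAt]
  intro ξ
  have h1 : ContinuousAt (NN x n) ((y : ℂ) + ξ * I) :=
    (hasDerivAt_NN x n (by rw [line_re]; exact hy)).continuousAt
  have h2 : ContinuousAt (fun ξ : ℝ => (y : ℂ) + ξ * I) ξ := by fun_prop
  exact ContinuousAt.comp (f := fun ξ : ℝ => (y : ℂ) + ξ * I) h1 h2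

lemma NN_re (t : ℝ) (n : ℕ) (y ξ : ℝ) : (NN (I * t) n ((y : ℂ) + ξ * I)).re = t * UU y ξ + 2 * π * n * y := by
  unfold NN UU
  have e1 : I * t * Psi ((y : ℂ) + ξ * I) = ((t : ℝ) : ℂ) * (I * Psi ((y : ℂ) + ξ * I)) := by ring
  have e2 : 2 * (π : ℂ) * n * ((y : ℂ) + ξ * I) = ((2 * π * n : ℝ) : ℂ) * ((y : ℂ) + ξ * I) := by
    push_cast; ring
  rw [e1, e2, Complex.add_re, Complex.re_ofReal_mul, Complex.re_ofReal_mul, line_re, Complex.I_mul_re]

/-- quadratic expansion of the exponent -/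
lemma NN_expand {X Y B t ν : ℝ} (hS : SP X Y B) (ht : 0 < t) {n : ℕ} (hν : ν = n / t)
    (hE : EE ((X : ℂ) - Y * I)⁻¹ = -(ν * I)) {τ : ℝ} (hτ : |τ| ≤ 0.005 / B) :
    ‖NN (I * t) n (((X : ℂ) - Y * I)⁻¹ + τ * I) - NN (I * t) n ((X : ℂ) - Y * I)⁻¹ +
      (-(2 * π * t * I * deriv EE ((X : ℂ) - Y * I)⁻¹) / 2) * (τ : ℂ) ^ 2‖ ≤
      2 * π * t * (0.00365 * B ^ 3) * τ ^ 2 := by
  set w := ((X : ℂ) - Y * I)⁻¹ with hw
  have hB0 := hS.hB0
  set s : Set ℝ := Set.Icc (-|τ|) |τ| with hs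
  have hnear : ∀ x ∈ s, ‖(w + x * I) - w‖ ≤ 0.005 / B := by
    intro x hx
    rw [add_sub_cancel_left, norm_mul, Complex.norm_I, mul_one, Complex.norm_real, Real.norm_eq_abs]
    exact (abs_le.2 hx).trans hτ
  have ht0 : (t : ℂ) ≠ 0 := by exact_mod_cast ht.ne'
  have h1 : ∀ x ∈ s, HasDerivWithinAt
      (fun x : ℝ => NN (I * t) n (w + x * I) +
        (-(2 * π * t * I * deriv EE w) / 2) * (x : ℂ) ^ 2)
      (2 * π * t * (EE (w + x * I) - EE w - x * (I * deriv EE w))) s x := by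
    intro x hx
    have h2 := (deriv_var hS (hnear x hx)).1
    have h3 : HasDerivAt (fun x : ℝ => w + x * I) I x := by
      simpa using ((hasDerivAt_id x).ofReal_comp.mul_const I).const_add w
    have h4 := (hasDerivAt_NN (I * t) n h2).comp x h3
    have h5 : HasDerivAt (fun x : ℝ => (x : ℂ)) 1 x := (hasDerivAt_id x).ofReal_comp
    have h6 := (h5.mul h5).const_mul (-(2 * π * t * I * deriv EE w) / 2)
    have e : (fun x : ℝ => NN (I * t) n (w + x * I) +
        (-(2 * π * t * I * deriv EE w) / 2) * (x : ℂ) ^ 2) =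
        (NN (I * t) n ∘ fun x : ℝ => w + x * I) + fun x : ℝ =>
        (-(2 * π * t * I * deriv EE w) / 2) * ((fun x : ℝ => (x : ℂ)) * fun x : ℝ => (x : ℂ)) x := by
      funext z
      simp only [Pi.add_apply, Pi.mul_apply, Function.comp_apply]
      ring
    rw [e]
    refine ((h4.add h6).congr_deriv ?_).hasDerivWithinAt
    rw [hE, hν]
    generalize EE (w + x * I) = z
    push_cast
    field_simp
    linear_combination (-(2 * t * z)) * I_sq
  have h6 : ∀ x ∈ s,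
      ‖2 * π * t * (EE (w + x * I) - EE w - x * (I * deriv EE w))‖ ≤ 2 * π * t * (0.00365 * B ^ 3) * |τ| := by
    intro x hx
    have hx' : |x| ≤ |τ| := abs_le.2 hx
    have h2 := EE_expand hS (hx'.trans hτ)
    rw [norm_mul]
    have h3 : ‖(2 * π * t : ℂ)‖ = 2 * π * t := by
      have : (2 * π * t : ℂ) = ((2 * π * t : ℝ) : ℂ) := by push_cast; rfl
      rw [this, Complex.norm_real, Real.norm_of_nonneg (by positivity)]
    rw [h3]
    calc 2 * π * t * ‖EE (w + x * I) - EE w - x * (I * deriv EE w)‖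
        ≤ 2 * π * t * (0.00365 * B ^ 3 * |x|) := by gcongr
      _ ≤ 2 * π * t * (0.00365 * B ^ 3 * |τ|) := by gcongr
      _ = _ := by ring
  have h7 := (convex_Icc (-|τ|) |τ|).norm_image_sub_le_of_norm_hasDerivWithin_le h1 h6
    (x := 0) (y := τ) ⟨by have := abs_nonneg τ; linarith, abs_nonneg τ⟩ ⟨neg_abs_le τ, le_abs_self τ⟩
  have e2 : 2 * π * t * (0.00365 * B ^ 3) * |τ| * |τ| = 2 * π * t * (0.00365 * B ^ 3) * τ ^ 2 := by
    rw [mul_assoc, ← sq, sq_abs]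
  rw [sub_zero, Real.norm_eq_abs, e2] at h7
  have e : NN (I * t) n (w + τ * I) - NN (I * t) n w + (-(2 * π * t * I * deriv EE w) / 2) * (τ : ℂ) ^ 2 =
      (NN (I * t) n (w + τ * I) + (-(2 * π * t * I * deriv EE w) / 2) * (τ : ℂ) ^ 2) -
      (NN (I * t) n (w + ((0 : ℝ) : ℂ) * I) + (-(2 * π * t * I * deriv EE w) / 2) * (((0 : ℝ) : ℂ)) ^ 2) := by
    rw [Complex.ofReal_zero, zero_mul, add_zero]
    ring
  rw [e]
  exact h7

/-- numerical comparison -/
lemma num_cmp {M : ℝ} (hM : 1.459e7 ≤ M) : 0.17 * M ^ 3 < 0.1225 * Real.exp (4.6e-6 * M) := by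
  set v := 1.15e-6 * M with hv
  have hv16 : 16 ≤ v := by rw [hv]; linarith
  have h1 : (2.7 : ℝ) ^ 16 * (v / 16) ≤ Real.exp v := by
    have h2 : Real.exp v = Real.exp 1 ^ 16 * Real.exp (v - 16) := by
      rw [← Real.exp_nat_mul, ← Real.exp_add]
      congr 1
      push_cast
      ring
    rw [h2]
    have h3 := Real.exp_one_gt_d9
    have h4 := Real.add_one_le_exp (v - 16)
    have h5 : v / 16 ≤ Real.exp (v - 16) := by linarith
    gcongr
    linarith
  have h6 : Real.exp (4.6e-6 * M) = Real.exp v ^ 4 := by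
    rw [← Real.exp_nat_mul]
    congr 1
    rw [hv]
    push_cast
    ring
  have h7 : M = v / 1.15e-6 := by rw [hv]; ring
  rw [h6, h7]
  have h8 : ((2.7 : ℝ) ^ 16 * (v / 16)) ^ 4 ≤ Real.exp v ^ 4 := by gcongr
  have h9 : (1 : ℝ) ≤ v / 16 := by linarith
  have h10 : 0.17 * (v / 1.15e-6) ^ 3 < 0.1225 * ((2.7 : ℝ) ^ 16 * (v / 16)) ^ 4 := by
    have e1 : 0.17 * (v / 1.15e-6) ^ 3 = (0.17 * (16 / 1.15e-6) ^ 3) * (v / 16) ^ 3 := by ring
    have e2 : 0.1225 * ((2.7 : ℝ) ^ 16 * (v / 16)) ^ 4 =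
      (0.1225 * ((2.7 : ℝ) ^ 16) ^ 4 * (v / 16)) * (v / 16) ^ 3 := by ring
    rw [e1, e2]
    have h11 : (0 : ℝ) < (v / 16) ^ 3 := by positivity
    apply mul_lt_mul_of_pos_right _ h11
    calc (0.17 * (16 / 1.15e-6) ^ 3 : ℝ) < 0.1225 * ((2.7 : ℝ) ^ 16) ^ 4 * 1 := by norm_num
      _ ≤ 0.1225 * ((2.7 : ℝ) ^ 16) ^ 4 * (v / 16) := by gcongr
  linarith

theorem pv_ne_zero_big {t : ℝ} (ht : 7.6e6 ≤ t) {n : ℕ} (hn : 1 / 18 ≤ (n : ℝ) / t) :
    pv (I * t) n ≠ 0 := by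
  obtain ⟨X, Y, hX, hY, h1, h2, hE⟩ := exists_saddle hn
  have hXY : 0 < X ^ 2 + Y ^ 2 := by positivity
  obtain ⟨B, hBdef⟩ : ∃ B, B = √(X ^ 2 + Y ^ 2) := ⟨_, rfl⟩
  have hS : SP X Y B := ⟨hX, hY, h1, h2, by rw [hBdef]; exact Real.sq_sqrt hXY.le,
    by rw [hBdef]; exact Real.sqrt_pos.2 hXY⟩
  have hB := hS.B_ge
  have hB0 := hS.hB0
  have ht0 : 0 < t := by linarith
  have hEre : (EE ((X : ℂ) - Y * I)⁻¹).re = 0 := by rw [hE]; simp
  obtain ⟨hI1, hI2, hI3⟩ := deriv_at hS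
  have hexp := fun τ => NN_expand hS ht0 (n := n) (ν := n / t) rfl hE (τ := τ)
  have hgap := fun ξ => UU_gap hS hEre (ξ := ξ)
  obtain ⟨hx1, hx2⟩ := xi_sub hS
  have hH := Hinv hS
  have hy0 : 0 < X / B ^ 2 := by positivity
  set w := ((X : ℂ) - Y * I)⁻¹ with hw
  generalize hydef : X / B ^ 2 = y at *
  generalize hξdef : Y / B ^ 2 = ξs at *
  set d := 0.005 / B with hd
  have hd0 : 0 < d := by positivity
  set J := (deriv EE w).im with hJ
  set a : ℂ := -(2 * π * t * I * deriv EE w) with ha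
  have hpi := Real.pi_gt_d6
  have hB3 : 0 < B ^ 3 := by positivity
  have hJ0 : 0 < J := lt_of_lt_of_le (by positivity) hI1
  have ha' : a = ((2 * π * t : ℝ) : ℂ) * (-(I * deriv EE w)) := by rw [ha]; push_cast; ring
  have haA : a.re = 2 * π * t * J := by
    rw [ha', Complex.re_ofReal_mul, Complex.neg_re, Complex.I_mul_re, neg_neg]
  have han : ‖a‖ = 2 * π * t * ‖deriv EE w‖ := by
    rw [ha', norm_mul, norm_neg, norm_mul, Complex.norm_I, one_mul, Complex.norm_real,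
      Real.norm_of_nonneg (by positivity)]
  obtain ⟨A, hA⟩ : ∃ A, A = 2 * π * t * J := ⟨_, rfl⟩
  have hA0 : 0 < A := by rw [hA]; positivity
  have haA' : ‖a‖ ≤ 5 / 3 * A := by
    rw [han, hA]
    calc 2 * π * t * ‖deriv EE w‖ ≤ 2 * π * t * (5 / 3 * J) := by gcongr
      _ = _ := by ring
  have hM : 1.459e7 ≤ t * B := by nlinarith
  have hAd : 32 ≤ A * d ^ 2 := by
    have h3 : 2 * 3.14 * t * (0.034 * B ^ 3) * d ^ 2 ≤ A * d ^ 2 := by
      rw [hA]
      have : (3.14 : ℝ) ≤ π := by linarith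
      gcongr
    have h4 : 2 * 3.14 * t * (0.034 * B ^ 3) * d ^ 2 = (2 * 3.14 * 0.034 * 0.000025) * (t * B) := by
      rw [hd]
      field_simp
      norm_num
    rw [h4] at h3
    nlinarith
  -- the normalized integrand
  set G : ℝ → ℂ := fun ξ => cexp (NN (I * t) n ((y : ℂ) + ξ * I) - NN (I * t) n w) with hG
  have hGc : Continuous G := ((NN_continuous (I * t) n hy0).sub continuous_const).cexp
  set F : ℝ → ℂ := fun τ => G (ξs + τ) with hF
  have hFc : Continuous F := hGc.comp (continuous_const.add continuous_id)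
  have hline : ∀ τ : ℝ, (y : ℂ) + ((ξs + τ : ℝ) : ℂ) * I = w + τ * I := by
    intro τ
    rw [hH]
    push_cast
    ring
  have hwin : 0.35 * √(π / A) ≤ ‖∫ τ in (-d)..d, F τ‖ := by
    refine window_integral (a := a) (R := fun τ => NN (I * t) n (w + τ * I) - NN (I * t) n w +
      a / 2 * (τ : ℂ) ^ 2) hA0 (haA.trans hA.symm) haA' hd0 hAd hFc ?_ ?_
    · intro τ _
      simp only [hF, hG]
      rw [hline, ← Complex.exp_add]
      congr 1
      ring
    · intro τ hτ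
      refine (hexp τ hτ).trans ?_
      rw [hA]
      have h3 : 0.00365 * B ^ 3 ≤ J / 8 := by linarith
      calc 2 * π * t * (0.00365 * B ^ 3) * τ ^ 2 ≤ 2 * π * t * (J / 8) * τ ^ 2 := by gcongr
        _ = 2 * π * t * J / 8 * τ ^ 2 := by ring
  have hshift : (∫ τ in (-d)..d, F τ) = ∫ ξ in (ξs - d)..(ξs + d), G ξ := by
    simp only [hF]
    rw [intervalIntegral.integral_comp_add_left]
    rfl
  rw [hshift] at hwin
  -- outside the window
  obtain ⟨C, hC⟩ : ∃ C, C = Real.exp (-(2.3e-6 * (t * B))) := ⟨_, rfl⟩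
  have hC0 : 0 < C := by rw [hC]; exact Real.exp_pos _
  have hout : ∀ ξ : ℝ, -(1 / 2) ≤ ξ → ξ ≤ 1 / 2 → d ≤ |ξ - ξs| → ‖G ξ‖ ≤ C := by
    intro ξ hξ1 hξ2 hξ3
    simp only [hG]
    rw [Complex.norm_exp, Complex.sub_re, hH, NN_re, NN_re, hC]
    apply Real.exp_le_exp.2
    have h3 := hgap ξ hξ1 hξ2 hξ3
    nlinarith
  intro hzero
  rw [pv_eq_integral (I * t) n hy0] at hzero
  have hmul : (∫ ξ in (-(1 / 2) : ℝ)..(1 / 2), cexp (NN (I * t) n ((y : ℂ) + ξ * I))) =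
      cexp (NN (I * t) n w) * ∫ ξ in (-(1 / 2) : ℝ)..(1 / 2), G ξ := by
    rw [← intervalIntegral.integral_const_mul]
    apply intervalIntegral.integral_congr
    intro ξ _
    simp only [hG]
    rw [← Complex.exp_add]
    congr 1
    ring
  rw [hmul] at hzero
  have hzero' : (∫ ξ in (-(1 / 2) : ℝ)..(1 / 2), G ξ) = 0 :=
    (mul_eq_zero.1 hzero).resolve_left (Complex.exp_ne_zero _)
  have hsplit : (∫ ξ in (-(1 / 2) : ℝ)..(1 / 2), G ξ) = (∫ ξ in (-(1 / 2) : ℝ)..(ξs - d), G ξ) +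
      (∫ ξ in (ξs - d)..(ξs + d), G ξ) + ∫ ξ in (ξs + d)..(1 / 2), G ξ := by
    rw [intervalIntegral.integral_add_adjacent_intervals (hGc.intervalIntegrable _ _)
      (hGc.intervalIntegrable _ _), intervalIntegral.integral_add_adjacent_intervals
      (hGc.intervalIntegrable _ _) (hGc.intervalIntegrable _ _)]
  have hL : ‖∫ ξ in (-(1 / 2) : ℝ)..(ξs - d), G ξ‖ ≤ C * |ξs - d - (-(1 / 2))| := by
    apply intervalIntegral.norm_integral_le_of_norm_le_const
    intro ξ hξ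
    rw [Set.uIoc_of_le (by linarith)] at hξ
    apply hout ξ hξ.1.le (by linarith [hξ.2])
    rw [abs_of_nonpos (by linarith [hξ.2])]
    linarith [hξ.2]
  have hR : ‖∫ ξ in (ξs + d)..(1 / 2), G ξ‖ ≤ C * |1 / 2 - (ξs + d)| := by
    apply intervalIntegral.norm_integral_le_of_norm_le_const
    intro ξ hξ
    rw [Set.uIoc_of_le (by linarith)] at hξ
    apply hout ξ (by linarith [hξ.1]) hξ.2
    rw [abs_of_nonneg (by linarith [hξ.1])]
    linarith [hξ.1]
  rw [abs_of_nonneg (by linarith)] at hL hR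
  have hW : ‖∫ ξ in (ξs - d)..(ξs + d), G ξ‖ ≤ C := by
    have h3 : (∫ ξ in (ξs - d)..(ξs + d), G ξ) = -((∫ ξ in (-(1 / 2) : ℝ)..(ξs - d), G ξ) +
      ∫ ξ in (ξs + d)..(1 / 2), G ξ) := by
      rw [hzero'] at hsplit
      linear_combination -hsplit
    rw [h3, norm_neg]
    refine (norm_add_le _ _).trans ?_
    have h4 : C * (ξs - d - (-(1 / 2))) + C * (1 / 2 - (ξs + d)) = C - 2 * d * C := by ring
    have h5 : 0 ≤ 2 * d * C := by positivity
    linarith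
  have h3 : 0.35 * √(π / A) ≤ C := hwin.trans hW
  have h4 : (0.35 * √(π / A)) ^ 2 ≤ C ^ 2 := by gcongr
  rw [mul_pow, Real.sq_sqrt (by positivity)] at h4
  have h5 : C ^ 2 * Real.exp (4.6e-6 * (t * B)) = 1 := by
    rw [hC, ← Real.exp_nat_mul, ← Real.exp_add]
    have : ((2 : ℕ) : ℝ) * -(2.3e-6 * (t * B)) + 4.6e-6 * (t * B) = 0 := by push_cast; ring
    rw [this, Real.exp_zero]
  have h6 := num_cmp hM
  have h7 : A ≤ π * (0.17 * (t * B) ^ 3) := by
    rw [hA]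
    have h8 : J ≤ 0.085 * B ^ 3 := ((le_abs_self J).trans (Complex.abs_im_le_norm _)).trans hI3
    calc 2 * π * t * J ≤ 2 * π * t * (0.085 * B ^ 3) := by gcongr
      _ = π * (0.17 * (1 * 1 * t) * B ^ 3) := by ring
      _ ≤ π * (0.17 * (t * t * t) * B ^ 3) := by
          have : (1 : ℝ) ≤ t := by linarith
          gcongr
      _ = _ := by ring
  have h8 : 0.35 ^ 2 * π ≤ C ^ 2 * A := by
    rw [← mul_div_assoc, div_le_iff₀ hA0] at h4
    exact h4
  have h9 : C ^ 2 * A ≤ C ^ 2 * (π * (0.17 * (t * B) ^ 3)) := by gcongr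
  have h10 : C ^ 2 * (π * (0.17 * (t * B) ^ 3)) < C ^ 2 * (π * (0.1225 * Real.exp (4.6e-6 * (t * B)))) := by
    gcongr
  have h11 : C ^ 2 * (π * (0.1225 * Real.exp (4.6e-6 * (t * B)))) = π * 0.1225 := by
    linear_combination (π * 0.1225) * h5
  rw [h11] at h10
  norm_num at h8
  linarith

end Pool.Agent.N809.DA
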