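import Pool.Agent.N809.DA.Trans

/-!
# Bounds for `φ`, `ψ`, and the case of large `|x|`
-/

set_option autoImplicit false

namespace Pool.Agent.N809.DA

open Complex Finset Filter Topology
open scoped Real ArithmeticFunction.sigma

lemma sigma_le_three (k : ℕ) : σ 1 (k + 1) ≤ 3 ^ k := by
  rcases Nat.lt_or_ge k 2 with h | h
  · interval_cases k
    · decide
    · decide
  · refine (sigma_le k).trans ?_
    induction k, h using Nat.le_induction with
    | base => norm_num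
    | succ k hk ih =>
      have e : 3 ^ (k + 1) = 3 * 3 ^ k := by ring
      rw [e]
      nlinarith

lemma summable_three {r : ℝ} (h0 : 0 ≤ r) (h1 : 3 * r < 1) : Summable (fun k : ℕ => (3 * r) ^ k) :=
  summable_geometric_of_lt_one (by positivity) h1

lemma norm_phi_le {z : ℂ} {r : ℝ} (hz : ‖z‖ ≤ r) (h1 : 3 * r < 1) : ‖phi z‖ ≤ 1 / (1 - 3 * r) := by
  have hr : 0 ≤ r := (norm_nonneg z).trans hz
  unfold phi
  rw [one_div, ← tsum_geometric_of_lt_one (by positivity) h1]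
  refine tsum_of_norm_bounded (summable_three hr h1).hasSum fun k => ?_
  rw [norm_mul, norm_pow, Complex.norm_natCast, mul_pow]
  gcongr
  exact_mod_cast sigma_le_three k

lemma norm_psi_term_le (z : ℂ) (k : ℕ) : ‖(σ 1 (k + 1) : ℂ) / ((k : ℂ) + 1) * z ^ (k + 1)‖ ≤
    (σ 1 (k + 1) : ℝ) / ((k : ℝ) + 1) * ‖z‖ ^ (k + 1) := by
  rw [norm_mul, norm_div, norm_pow, Complex.norm_natCast]
  have : ‖((k : ℂ) + 1)‖ = (k : ℝ) + 1 := by
    have : ((k : ℂ) + 1) = (((k : ℝ) + 1 : ℝ) : ℂ) := by push_cast; rfl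
    rw [this, Complex.norm_real, Real.norm_of_nonneg (by positivity)]
  rw [this]

lemma summable_psi_real {r : ℝ} (h0 : 0 ≤ r) (h1 : r < 1) :
    Summable (fun k : ℕ => (σ 1 (k + 1) : ℝ) / ((k : ℝ) + 1) * r ^ (k + 1)) := by
  refine Summable.of_nonneg_of_le (fun k => by positivity) (fun k => ?_) (summable_sq h0 h1)
  have h2 : (σ 1 (k + 1) : ℝ) / ((k : ℝ) + 1) ≤ (k : ℝ) + 1 := by
    rw [div_le_iff₀ (by positivity)]
    have := sigma_le k
    have h3 : (σ 1 (k + 1) : ℝ) ≤ ((k : ℝ) + 1) ^ 2 := by exact_mod_cast this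
    nlinarith
  calc (σ 1 (k + 1) : ℝ) / ((k : ℝ) + 1) * r ^ (k + 1) ≤ ((k : ℝ) + 1) * r ^ k :=
        mul_le_mul h2 (pow_le_pow_of_le_one h0 h1.le (Nat.le_succ k)) (by positivity) (by positivity)
    _ ≤ ((k : ℝ) + 1) ^ 2 * r ^ k := by
        gcongr
        nlinarith [(Nat.cast_nonneg k : (0 : ℝ) ≤ k)]

/-- the real version of `ψ` -/
noncomputable def psiR (r : ℝ) : ℝ := ∑' k : ℕ, (σ 1 (k + 1) : ℝ) / ((k : ℝ) + 1) * r ^ (k + 1)

lemma psi_ofReal (r : ℝ) : psi (r : ℂ) = (psiR r : ℂ) := by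
  unfold psi psiR
  rw [Complex.ofReal_tsum]
  refine tsum_congr fun k => ?_
  push_cast
  rfl

lemma norm_psi_le_psiR {z : ℂ} (hz : ‖z‖ < 1) : ‖psi z‖ ≤ psiR ‖z‖ := by
  unfold psi psiR
  exact tsum_of_norm_bounded (summable_psi_real (norm_nonneg z) hz).hasSum (norm_psi_term_le z)

lemma psiR_nonneg {r : ℝ} (h0 : 0 ≤ r) : 0 ≤ psiR r := tsum_nonneg fun k => by positivity

lemma psiR_le {r : ℝ} (h0 : 0 ≤ r) (h1 : 3 * r < 1) : psiR r ≤ r / (1 - 3 * r) := by
  unfold psiR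
  rw [div_eq_mul_inv, ← tsum_geometric_of_lt_one (by positivity) h1, ← tsum_mul_left]
  refine Summable.tsum_le_tsum (fun k => ?_) (summable_psi_real h0 (by linarith))
    ((summable_three h0 h1).mul_left r)
  have h2 : (σ 1 (k + 1) : ℝ) / ((k : ℝ) + 1) ≤ 3 ^ k := by
    rw [div_le_iff₀ (by positivity)]
    have h3 : (σ 1 (k + 1) : ℝ) ≤ 3 ^ k := by exact_mod_cast sigma_le_three k
    nlinarith [(Nat.cast_nonneg k : (0 : ℝ) ≤ k), (by positivity : (0 : ℝ) < 3 ^ k)]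
  calc (σ 1 (k + 1) : ℝ) / ((k : ℝ) + 1) * r ^ (k + 1) ≤ 3 ^ k * r ^ (k + 1) := by gcongr
    _ = r * (3 * r) ^ k := by rw [mul_pow]; ring

/-- `Ψ` on the positive reals -/
noncomputable def PsiR (u : ℝ) : ℝ := psiR (Real.exp (-(2 * π * u)))

lemma Psi_ofReal (u : ℝ) : Psi (u : ℂ) = (PsiR u : ℂ) := by
  unfold Psi PsiR
  rw [← psi_ofReal]
  congr 1
  push_cast
  rfl

lemma norm_Psi_le {w : ℂ} (hw : 0 < w.re) : ‖Psi w‖ ≤ PsiR w.re := by
  have h := norm_psi_le_psiR (norm_q_lt hw)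
  rw [norm_q] at h
  exact h

lemma PsiR_nonneg (u : ℝ) : 0 ≤ PsiR u := psiR_nonneg (Real.exp_pos _).le

lemma PsiR_trans {u : ℝ} (hu : 0 < u) :
    PsiR u = π / (12 * u) - π * u / 12 + Real.log u / 2 + PsiR (1 / u) := by
  have h := psi_trans (w := (u : ℂ)) (by simpa using hu)
  rw [← Complex.ofReal_inv, Psi_ofReal, Psi_ofReal, ← Complex.ofReal_log hu.le] at h
  have h2 : PsiR u = π * u⁻¹ / 12 - π * u / 12 + Real.log u / 2 + PsiR u⁻¹ := by
    exact_mod_cast h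
  rw [h2, one_div]
  have : π / (12 * u) = π * u⁻¹ / 12 := by
    field_simp
  rw [this]

lemma norm_EE_le {w : ℂ} {r : ℝ} (hr : Real.exp (-(2 * π * w.re)) ≤ r) (h1 : 3 * r < 1) :
    ‖EE w‖ ≤ Real.exp (-(2 * π * w.re)) / (1 - 3 * r) := by
  unfold EE
  rw [norm_mul, norm_q]
  have h2 : ‖cexp (-(2 * π * w))‖ ≤ r := by rw [norm_q]; exact hr
  have := norm_phi_le h2 h1
  calc Real.exp (-(2 * π * w.re)) * ‖phi (cexp (-(2 * π * w)))‖
      ≤ Real.exp (-(2 * π * w.re)) * (1 / (1 - 3 * r)) := by gcongr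
    _ = _ := by ring

/-! ### Small `n` -/

/-- The case of large `|x|`. -/
lemma pv_ratio {x : ℂ} (hx : x ≠ 0) (N : ℕ) (hN : 18 * ((N : ℝ) - 1) ≤ ‖x‖) :
    ∀ n : ℕ, n + 1 ≤ N → ‖x‖ / (2 * (n + 1)) * ‖pv x n‖ ≤ ‖pv x (n + 1)‖ := by
  intro n
  induction n using Nat.strong_induction_on with
  | _ n ih =>
    intro hn
    have hx0 : 0 < ‖x‖ := norm_pos_iff.2 hx
    -- the earlier ones decay
    have hstep : ∀ m, m < n → ‖pv x m‖ ≤ (1 / 9) * ‖pv x (m + 1)‖ := by
      intro m hm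
      have h1 := ih m hm (by omega)
      have h2 : (9 : ℝ) * ((m : ℝ) + 1) * 2 ≤ ‖x‖ := by
        have h3 : (m : ℝ) + 1 ≤ (N : ℝ) - 1 := by
          have : m + 2 ≤ N := by omega
          have : ((m + 2 : ℕ) : ℝ) ≤ N := by exact_mod_cast this
          push_cast at this
          linarith
        linarith
      have h4 : 9 ≤ ‖x‖ / (2 * ((m : ℝ) + 1)) := by
        rw [le_div_iff₀ (by positivity)]
        linarith
      have h5 := mul_le_mul_of_nonneg_right h4 (norm_nonneg (pv x m))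
      linarith
    have hdec : ∀ k, k ≤ n → ‖pv x (n - k)‖ ≤ (1 / 9) ^ k * ‖pv x n‖ := by
      intro k
      induction k with
      | zero => intro _; simp
      | succ k ihk =>
        intro hk
        have h1 := ihk (by omega)
        have h2 := hstep (n - (k + 1)) (by omega)
        rw [show n - (k + 1) + 1 = n - k by omega] at h2
        rw [pow_succ]
        nlinarith
    have hrec := pv_succ x n
    rw [sum_range_succ'] at hrec
    simp only [zero_add, Nat.sub_zero] at hrec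
    have hs1 : (σ 1 1 : ℂ) = 1 := by simp
    rw [hs1, one_mul] at hrec
    have htail : ‖∑ k ∈ range n, (σ 1 (k + 1 + 1) : ℂ) * pv x (n - (k + 1))‖ ≤ (1 / 2) * ‖pv x n‖ := by
      refine (norm_sum_le _ _).trans ?_
      have h1 : ∀ k ∈ range n, ‖(σ 1 (k + 1 + 1) : ℂ) * pv x (n - (k + 1))‖ ≤
          (1 / 3) ^ (k + 1) * ‖pv x n‖ := by
        intro k hk
        rw [mem_range] at hk
        rw [norm_mul, Complex.norm_natCast]
        have h2 : (σ 1 (k + 1 + 1) : ℝ) ≤ 3 ^ (k + 1) := by exact_mod_cast sigma_le_three (k + 1)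
        calc (σ 1 (k + 1 + 1) : ℝ) * ‖pv x (n - (k + 1))‖
            ≤ 3 ^ (k + 1) * ((1 / 9) ^ (k + 1) * ‖pv x n‖) := by
              gcongr
              exact hdec (k + 1) (by omega)
          _ = (1 / 3) ^ (k + 1) * ‖pv x n‖ := by
              rw [← mul_assoc, ← mul_pow]
              norm_num
      refine (sum_le_sum h1).trans ?_
      rw [← sum_mul]
      gcongr
      have h3 : ∀ m : ℕ, ∑ k ∈ range m, (1 / 3 : ℝ) ^ (k + 1) = 1 / 2 - 1 / 2 * (1 / 3) ^ m := by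
        intro m
        induction m with
        | zero => norm_num
        | succ m ihm => rw [sum_range_succ, ihm]; ring
      rw [h3]
      have : (0 : ℝ) < (1 / 3) ^ n := by positivity
      linarith
    have h6 : ‖((n : ℂ) + 1) * pv x (n + 1)‖ ≥ ‖x‖ * ((1 / 2) * ‖pv x n‖) := by
      rw [hrec, norm_mul]
      refine mul_le_mul_of_nonneg_left ?_ hx0.le
      have h7 : ‖pv x n‖ ≤ ‖∑ k ∈ range n, (σ 1 (k + 1 + 1) : ℂ) * pv x (n - (k + 1)) + pv x n‖ +
          ‖∑ k ∈ range n, (σ 1 (k + 1 + 1) : ℂ) * pv x (n - (k + 1))‖ := by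
        have := norm_sub_le (∑ k ∈ range n, (σ 1 (k + 1 + 1) : ℂ) * pv x (n - (k + 1)) + pv x n)
          (∑ k ∈ range n, (σ 1 (k + 1 + 1) : ℂ) * pv x (n - (k + 1)))
        rwa [add_sub_cancel_left] at this
      linarith
    rw [norm_mul] at h6
    have h8 : ‖((n : ℂ) + 1)‖ = (n : ℝ) + 1 := by
      have : ((n : ℂ) + 1) = (((n : ℝ) + 1 : ℝ) : ℂ) := by push_cast; rfl
      rw [this, Complex.norm_real, Real.norm_of_nonneg (by positivity)]
    rw [h8] at h6
    rw [div_mul_eq_mul_div, div_le_iff₀ (by positivity)]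
    linarith

theorem pv_ne_zero_of_large {x : ℂ} (hx : x ≠ 0) (n : ℕ) (hN : 18 * ((n : ℝ) - 1) ≤ ‖x‖) :
    pv x n ≠ 0 := by
  have key : ∀ m, m ≤ n → pv x m ≠ 0 := by
    intro m
    induction m with
    | zero => intro _; rw [pv_zero]; exact one_ne_zero
    | succ m ih =>
      intro hm h0
      have h1 := pv_ratio hx n hN m hm
      rw [h0, norm_zero] at h1
      have h2 : 0 < ‖pv x m‖ := norm_pos_iff.2 (ih (by omega))
      have h3 : 0 < ‖x‖ := norm_pos_iff.2 hx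
      have h4 : 0 < ‖x‖ / (2 * ((m : ℝ) + 1)) * ‖pv x m‖ := by positivity
      linarith
  exact key n le_rfl

end Pool.Agent.N809.DA
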