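import Pool.Agent.N809.DA.Arith

set_option autoImplicit false

namespace Pool.Agent.N809.DA

set_option maxRecDepth 100000 in
lemma check43 : check 43 = true := by decide +kernel

end Pool.Agent.N809.DA
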