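import Pool.Agent.N809.DA.Asym
import Pool.Agent.N809.DA.C43
import Pool.Agent.N809.DA.C47

/-!
# Assembly: real and integer points of the imaginary axis
-/

set_option autoImplicit false

namespace Pool.Agent.N809.DA

open Complex
open scoped ComplexConjugate

lemma pv_conj (x : ℂ) (n : ℕ) : pv (conj x) n = conj (pv x n) := by
  induction n using Nat.strong_induction_on with
  | _ n ih =>
    cases n with
    | zero => simp [pv_zero]
    | succ n =>
      rw [pv, pv, map_mul, map_sum, map_div₀]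
      congr 1
      · simp
      · apply Finset.sum_congr rfl
        intro k _
        rw [ih (n - k) (by omega), map_mul]
        simp

/-- no zeros on the imaginary axis at height at least `7.6 * 10 ^ 6` -/
theorem pv_ne_zero_real {t : ℝ} (ht : 7600000 ≤ |t|) (n : ℕ) : pv (I * t) n ≠ 0 := by
  have key : ∀ s : ℝ, 7600000 ≤ s → pv (I * s) n ≠ 0 := by
    intro s hs
    have hs0 : 0 < s := by linarith
    by_cases h : 18 * ((n : ℝ) - 1) ≤ s
    · apply pv_ne_zero_of_large
      · simp [hs0.ne']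
      · rw [norm_mul, Complex.norm_I, one_mul, Complex.norm_real, Real.norm_of_nonneg hs0.le]
        exact h
    · push Not at h
      apply pv_ne_zero_big (by norm_num; linarith)
      rw [div_le_div_iff₀ (by norm_num) hs0]
      linarith
  rcases le_or_gt 0 t with h | h
  · rw [abs_of_nonneg h] at ht
    exact key t ht
  · rw [abs_of_neg h] at ht
    have h1 := key (-t) ht
    have h2 : I * (t : ℂ) = conj (I * ((-t : ℝ) : ℂ)) := by
      simp
    rw [h2, pv_conj]
    simpa using h1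

theorem pv_ne_zero_int {t : ℤ} (ht0 : t ≠ 0) (h18 : (18 : ℤ) ∣ t) (n : ℕ) : pv (I * (t : ℂ)) n ≠ 0 := by
  by_cases h11 : ((11 : ℕ) : ℤ) ∣ t
  swap
  · exact pv_ne_zero_of_check (by norm_num) (by norm_num) check11 t h11 n
  by_cases h19 : ((19 : ℕ) : ℤ) ∣ t
  swap
  · exact pv_ne_zero_of_check (by norm_num) (by norm_num) check19 t h19 n
  by_cases h43 : ((43 : ℕ) : ℤ) ∣ t
  swap
  · exact pv_ne_zero_of_check (by norm_num) (by norm_num) check43 t h43 n
  by_cases h47 : ((47 : ℕ) : ℤ) ∣ t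
  swap
  · exact pv_ne_zero_of_check (by norm_num) (by norm_num) check47 t h47 n
  have h1 : 18 ∣ t.natAbs := Int.natCast_dvd.1 (by exact_mod_cast h18)
  have h2 : 11 ∣ t.natAbs := Int.natCast_dvd.1 h11
  have h3 : 19 ∣ t.natAbs := Int.natCast_dvd.1 h19
  have h4 : 43 ∣ t.natAbs := Int.natCast_dvd.1 h43
  have h5 : 47 ∣ t.natAbs := Int.natCast_dvd.1 h47
  have h6 : 18 * 11 ∣ t.natAbs := Nat.Coprime.mul_dvd_of_dvd_of_dvd (by norm_num) h1 h2
  have h7 : 18 * 11 * 19 ∣ t.natAbs := Nat.Coprime.mul_dvd_of_dvd_of_dvd (by norm_num) h6 h3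
  have h8 : 18 * 11 * 19 * 43 ∣ t.natAbs := Nat.Coprime.mul_dvd_of_dvd_of_dvd (by norm_num) h7 h4
  have h9 : 18 * 11 * 19 * 43 * 47 ∣ t.natAbs := Nat.Coprime.mul_dvd_of_dvd_of_dvd (by norm_num) h8 h5
  have h10 : 18 * 11 * 19 * 43 * 47 ≤ t.natAbs := Nat.le_of_dvd (Int.natAbs_pos.2 ht0) h9
  have h11 : (7600000 : ℝ) ≤ |((t : ℤ) : ℝ)| := by
    rw [← Int.cast_abs, Int.abs_eq_natAbs]
    have h12 : 7600000 ≤ t.natAbs := le_trans (by norm_num) h10
    exact_mod_cast h12
  have h12 := pv_ne_zero_real h11 n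
  simpa using h12

end Pool.Agent.N809.DA
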