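import Mathlib

/-!
# D'Arcais polynomials: the generating function and the integral representation
-/

set_option autoImplicit false

namespace Pool.Agent.N809.DA

open Complex MeasureTheory Finset Filter Topology
open scoped Real ArithmeticFunction.sigma

/-- values of the D'Arcais polynomials -/
noncomputable def pv (x : ℂ) : ℕ → ℂ
  | 0 => 1
  | n + 1 => x / ((n : ℂ) + 1) * ∑ k : Fin (n + 1), (σ 1 ((k : ℕ) + 1) : ℂ) * pv x (n - k)

lemma pv_zero (x : ℂ) : pv x 0 = 1 := by rw [pv]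

lemma pv_succ (x : ℂ) (n : ℕ) :
    ((n : ℂ) + 1) * pv x (n + 1) = x * ∑ k ∈ range (n + 1), (σ 1 (k + 1) : ℂ) * pv x (n - k) := by
  have hn : ((n : ℂ) + 1) ≠ 0 := by exact_mod_cast Nat.succ_ne_zero n
  rw [pv, Finset.sum_range (fun k => (σ 1 (k + 1) : ℂ) * pv x (n - k))]
  field_simp

lemma sigma_le (k : ℕ) : σ 1 (k + 1) ≤ (k + 1) ^ 2 := ArithmeticFunction.sigma_le_pow_succ 1 (k + 1)

lemma summable_sq {r : ℝ} (h0 : 0 ≤ r) (h1 : r < 1) :
    Summable (fun k : ℕ => ((k : ℝ) + 1) ^ 2 * r ^ k) := by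
  have e : ∀ k : ℕ, ((k : ℝ) + 1) ^ 2 * r ^ k = (k : ℝ) ^ 2 * r ^ k + 2 * ((k : ℝ) ^ 1 * r ^ k) + r ^ k := by
    intro k
    ring
  simp_rw [e]
  have hr : ‖r‖ < 1 := by rwa [Real.norm_of_nonneg h0]
  exact ((summable_pow_mul_geometric_of_norm_lt_one 2 hr).add
    ((summable_pow_mul_geometric_of_norm_lt_one 1 hr).mul_left 2)).add
    (summable_geometric_of_lt_one h0 h1)

lemma norm_term_le (z : ℂ) (k : ℕ) : ‖(σ 1 (k + 1) : ℂ) * z ^ k‖ ≤ ((k : ℝ) + 1) ^ 2 * ‖z‖ ^ k := by
  rw [norm_mul, norm_pow, Complex.norm_natCast]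
  gcongr
  exact_mod_cast sigma_le k

/-- `φ(z) = ∑ σ(k+1) z^k` -/
noncomputable def phi (z : ℂ) : ℂ := ∑' k : ℕ, (σ 1 (k + 1) : ℂ) * z ^ k

/-- `ψ(z) = ∑ σ(k+1)/(k+1) z^(k+1)` -/
noncomputable def psi (z : ℂ) : ℂ := ∑' k : ℕ, (σ 1 (k + 1) : ℂ) / ((k : ℂ) + 1) * z ^ (k + 1)

lemma summable_phi {z : ℂ} (hz : ‖z‖ < 1) : Summable (fun k : ℕ => (σ 1 (k + 1) : ℂ) * z ^ k) :=
  Summable.of_norm_bounded (summable_sq (norm_nonneg z) hz) (norm_term_le z)

/-- the formal power series of `φ` -/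
noncomputable def phiS : FormalMultilinearSeries ℂ ℂ ℂ :=
  FormalMultilinearSeries.ofScalars ℂ (fun k : ℕ => (σ 1 (k + 1) : ℂ))

lemma phi_eq : phi = phiS.sum := by
  funext z
  unfold phi phiS
  have := FormalMultilinearSeries.ofScalars_sum_eq (𝕜 := ℂ) (E := ℂ)
    (fun k : ℕ => (σ 1 (k + 1) : ℂ)) z
  unfold FormalMultilinearSeries.ofScalarsSum at this
  rw [this]
  simp [smul_eq_mul]

lemma phi_hasFPowerSeries : HasFPowerSeriesOnBall phi phiS 0 1 := by
  have hr : (1 : ENNReal) ≤ phiS.radius := by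
    refine ENNReal.le_of_forall_nnreal_lt fun r hr => ?_
    apply FormalMultilinearSeries.le_radius_of_summable
    have hr1 : (r : ℝ) < 1 := by exact_mod_cast hr
    refine Summable.of_nonneg_of_le (fun n => by positivity) (fun n => ?_)
      (summable_sq r.coe_nonneg hr1)
    unfold phiS
    rw [FormalMultilinearSeries.ofScalars_norm, Complex.norm_natCast]
    gcongr
    exact_mod_cast sigma_le n
  have h := phiS.hasFPowerSeriesOnBall (lt_of_lt_of_le one_pos hr)
  rw [← phi_eq] at h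
  exact h.mono one_pos hr

lemma phi_differentiable : DifferentiableOn ℂ phi (Metric.ball 0 1) := by
  have := phi_hasFPowerSeries.differentiableOn
  rwa [show (1 : ENNReal) = ENNReal.ofReal 1 by simp, Metric.eball_ofReal] at this

lemma iteratedDeriv_phi (k : ℕ) : iteratedDeriv k phi 0 = (k.factorial : ℂ) * (σ 1 (k + 1) : ℂ) := by
  have h := phi_hasFPowerSeries.factorial_smul (1 : ℂ) k
  rw [iteratedFDeriv_apply_eq_iteratedDeriv_mul_prod] at h
  simp only [Finset.prod_const_one, one_smul] at h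
  rw [← h, phiS, FormalMultilinearSeries.ofScalars_apply_eq]
  simp

lemma hasDerivAt_psi {z : ℂ} (hz : ‖z‖ < 1) : HasDerivAt psi (phi z) z := by
  obtain ⟨r, hr1, hr2⟩ := exists_between hz
  have hr0 : 0 ≤ r := (norm_nonneg z).trans hr1.le
  unfold psi phi
  refine hasDerivAt_tsum_of_isPreconnected (summable_sq hr0 hr2) Metric.isOpen_ball
    (Metric.isPreconnected_ball (x := (0 : ℂ)) (r := r)) (g := fun k z => (σ 1 (k + 1) : ℂ) / ((k : ℂ) + 1) * z ^ (k + 1))
    (g' := fun k z => (σ 1 (k + 1) : ℂ) * z ^ k) (y₀ := 0) ?_ ?_ ?_ ?_ ?_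
  · intro n y _
    have hn : ((n : ℂ) + 1) ≠ 0 := by exact_mod_cast Nat.succ_ne_zero n
    have h1 := (hasDerivAt_pow (n + 1) y).const_mul ((σ 1 (n + 1) : ℂ) / ((n : ℂ) + 1))
    refine h1.congr_deriv ?_
    rw [Nat.add_sub_cancel]
    push_cast
    field_simp
  · intro n y hy
    rw [mem_ball_zero_iff] at hy
    refine (norm_term_le y n).trans ?_
    gcongr
  · rw [mem_ball_zero_iff, norm_zero]
    exact lt_of_le_of_lt (norm_nonneg z) hr1
  · simp only [pow_succ, mul_zero]
    exact summable_zero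
  · rw [mem_ball_zero_iff]
    exact hr1

lemma psi_zero : psi 0 = 0 := by
  unfold psi
  simp

/-- the generating function -/
noncomputable def gf (x z : ℂ) : ℂ := cexp (x * psi z)

lemma hasDerivAt_gf (x : ℂ) {z : ℂ} (hz : ‖z‖ < 1) : HasDerivAt (gf x) (x * phi z * gf x z) z := by
  have h := ((hasDerivAt_psi hz).const_mul x).cexp
  refine h.congr_deriv ?_
  unfold gf
  ring

lemma gf_differentiable (x : ℂ) : DifferentiableOn ℂ (gf x) (Metric.ball 0 1) := by
  intro z hz
  rw [mem_ball_zero_iff] at hz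
  exact (hasDerivAt_gf x hz).differentiableAt.differentiableWithinAt

lemma contDiffAt_of {f : ℂ → ℂ} (hf : DifferentiableOn ℂ f (Metric.ball 0 1)) (n : ℕ) :
    ContDiffAt ℂ n f 0 :=
  (hf.contDiffOn (n := n) Metric.isOpen_ball).contDiffAt (Metric.ball_mem_nhds 0 one_pos)

lemma iteratedDeriv_gf (x : ℂ) (n : ℕ) : iteratedDeriv n (gf x) 0 = (n.factorial : ℂ) * pv x n := by
  induction n using Nat.strong_induction_on with
  | _ n ih =>
    cases n with
    | zero =>
      simp [gf, psi_zero, pv_zero]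
    | succ n =>
      rw [iteratedDeriv_succ']
      have h1 : deriv (gf x) =ᶠ[𝓝 0] fun z => (x * phi z) * gf x z := by
        filter_upwards [Metric.ball_mem_nhds (0 : ℂ) one_pos] with z hz
        rw [mem_ball_zero_iff] at hz
        exact (hasDerivAt_gf x hz).deriv
      rw [h1.iteratedDeriv_eq]
      have h2 := iteratedDeriv_mul (n := n) (x := (0 : ℂ)) (f := fun z => x * phi z) (g := gf x)
        (contDiffAt_of (phi_differentiable.const_mul x) n) (contDiffAt_of (gf_differentiable x) n)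
      have h3 : (fun z => (x * phi z) * gf x z) = (fun z => x * phi z) * gf x := rfl
      rw [h3, h2]
      have h4 : ∀ i ∈ range (n + 1), (n.choose i : ℂ) * iteratedDeriv i (fun z => x * phi z) 0 *
          iteratedDeriv (n - i) (gf x) 0 =
          (n.factorial : ℂ) * (x * ((σ 1 (i + 1) : ℂ) * pv x (n - i))) := by
        intro i hi
        rw [mem_range] at hi
        rw [ih (n - i) (by omega)]
        have h5 : iteratedDeriv i (fun z => x * phi z) 0 = x * ((i.factorial : ℂ) * (σ 1 (i + 1) : ℂ)) := by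
          rw [iteratedDeriv_const_mul_field, iteratedDeriv_phi]
        rw [h5]
        have h6 : (n.choose i : ℂ) * (i.factorial : ℂ) * ((n - i).factorial : ℂ) = (n.factorial : ℂ) := by
          exact_mod_cast Nat.choose_mul_factorial_mul_factorial (by omega : i ≤ n)
        rw [← h6]
        ring
      rw [sum_congr rfl h4, ← mul_sum, ← mul_sum, ← pv_succ, Nat.factorial_succ]
      push_cast
      ring

/-! ### Integral representation -/

/-- `Ψ(w) = ψ(e^{-2πw})` -/
noncomputable def Psi (w : ℂ) : ℂ := psi (cexp (-(2 * π * w)))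

/-- `E(w) = ∑ σ(k) e^{-2πkw}` -/
noncomputable def EE (w : ℂ) : ℂ := cexp (-(2 * π * w)) * phi (cexp (-(2 * π * w)))

lemma norm_q (w : ℂ) : ‖cexp (-(2 * π * w))‖ = Real.exp (-(2 * π * w.re)) := by
  rw [Complex.norm_exp]
  simp

lemma norm_q_lt {w : ℂ} (hw : 0 < w.re) : ‖cexp (-(2 * π * w))‖ < 1 := by
  rw [norm_q, Real.exp_lt_one_iff]
  have := Real.pi_pos
  nlinarith [mul_pos this hw]

lemma hasDerivAt_Psi {w : ℂ} (hw : 0 < w.re) : HasDerivAt Psi (-(2 * π * EE w)) w := by
  have h1 : HasDerivAt (fun w : ℂ => cexp (-(2 * π * w))) (cexp (-(2 * π * w)) * (-(2 * π))) w := by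
    have h2 : HasDerivAt (fun w : ℂ => -(2 * π * w)) (-(2 * π)) w := by
      have := ((hasDerivAt_id w).const_mul (-(2 * π) : ℂ))
      simpa [neg_mul] using this
    exact h2.cexp
  have h3 := (hasDerivAt_psi (norm_q_lt hw)).comp w h1
  refine h3.congr_deriv ?_
  unfold EE
  ring

/-- the exponent of the integrand -/
noncomputable def NN (x : ℂ) (n : ℕ) (w : ℂ) : ℂ := x * Psi w + 2 * π * n * w

theorem pv_eq_integral (x : ℂ) (n : ℕ) {y : ℝ} (hy : 0 < y) :
    pv x n = ∫ ξ in (-(1 / 2) : ℝ)..(1 / 2), cexp (NN x n ((y : ℂ) + ξ * I)) := by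
  set r : ℝ := Real.exp (-(2 * π * y)) with hr
  have hr0 : 0 < r := Real.exp_pos _
  have hr1 : r < 1 := by
    rw [hr, Real.exp_lt_one_iff]
    have := Real.pi_pos
    nlinarith [mul_pos this hy]
  have hdc : DiffContOnCl ℂ (gf x) (Metric.ball 0 r) := by
    apply DifferentiableOn.diffContOnCl
    rw [closure_ball _ hr0.ne']
    exact (gf_differentiable x).mono (Metric.closedBall_subset_ball hr1)
  have h1 := hdc.circleIntegral_one_div_sub_center_pow_smul hr0 n
  rw [iteratedDeriv_gf] at h1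
  -- the integrand as a function of the angle
  set G : ℝ → ℂ := fun θ => gf x (circleMap 0 r θ) * (circleMap 0 r θ)⁻¹ ^ n with hG
  have h2 : (∮ z in C(0, r), (1 / (z - 0) ^ (n + 1)) • gf x z) = I * ∫ θ in (0 : ℝ)..(2 * π), G θ := by
    rw [circleIntegral, ← intervalIntegral.integral_const_mul]
    refine intervalIntegral.integral_congr fun θ _ => ?_
    have hne : circleMap 0 r θ ≠ 0 := circleMap_ne_center hr0.ne'
    simp only [deriv_circleMap, smul_eq_mul, sub_zero, hG, inv_pow]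
    field_simp
    ring
  have h3 : (∫ θ in (0 : ℝ)..(2 * π), G θ) = 2 * π * pv x n := by
    have hfac : (n.factorial : ℂ) ≠ 0 := by exact_mod_cast n.factorial_ne_zero
    rw [h2, smul_eq_mul] at h1
    have h4 : I * ((∫ θ in (0 : ℝ)..(2 * π), G θ)) = I * (2 * π * pv x n) := by
      rw [h1]
      field_simp
    exact mul_left_cancel₀ I_ne_zero h4
  have hper : Function.Periodic G (2 * π) := by
    intro θ
    simp only [hG]
    rw [periodic_circleMap 0 r θ]
  have h5 : (∫ θ in (0 : ℝ)..(2 * π), G θ) = ∫ θ in (-π : ℝ)..π, G θ := by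
    have := hper.intervalIntegral_add_eq 0 (-π)
    rw [zero_add] at this
    rw [this]
    congr 1
    ring
  have h6 : (∫ θ in (-π : ℝ)..π, G θ) = 2 * π * ∫ ξ in (-(1 / 2) : ℝ)..(1 / 2), G (-(2 * π) * ξ) := by
    rw [intervalIntegral.integral_comp_mul_left (fun θ => G θ) (by have := Real.pi_pos; intro h; nlinarith : -(2 * π) ≠ 0)]
    have e1 : -(2 * π) * -(1 / 2) = π := by ring
    have e2 : -(2 * π) * (1 / 2) = -π := by ring
    rw [e1, e2, intervalIntegral.integral_symm (-π) π]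
    rw [Complex.real_smul]
    have hpi : (π : ℂ) ≠ 0 := by exact_mod_cast Real.pi_ne_zero
    push_cast
    field_simp
  have hpi : (2 * π : ℂ) ≠ 0 := by
    simp
  have h7 : pv x n = ∫ ξ in (-(1 / 2) : ℝ)..(1 / 2), G (-(2 * π) * ξ) := by
    apply mul_left_cancel₀ hpi
    rw [← h3, h5, h6]
  rw [h7]
  refine intervalIntegral.integral_congr fun ξ _ => ?_
  simp only [hG, NN]
  have hq : circleMap 0 r (-(2 * π) * ξ) = cexp (-(2 * π * ((y : ℂ) + ξ * I))) := by
    rw [circleMap_zero, hr, Complex.ofReal_exp, ← Complex.exp_add]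
    congr 1
    push_cast
    ring
  rw [hq, Complex.exp_add]
  unfold gf Psi
  congr 1
  rw [← Complex.exp_neg, ← Complex.exp_nat_mul]
  congr 1
  ring

end Pool.Agent.N809.DA
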