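import Pool.Agent.N809.DA.Region

/-!
# The maximum of the exponent on the vertical line
-/

set_option autoImplicit false

namespace Pool.Agent.N809.DA

open Complex Finset Filter Topology
open scoped Real ComplexConjugate

lemma anti_of {f f' : ℝ → ℝ} (hf : ∀ x, HasDerivAt f (f' x) x) {a b : ℝ} (hab : a ≤ b)
    (h : ∀ x, a ≤ x → x ≤ b → f' x ≤ 0) : f b ≤ f a := by
  have h1 : AntitoneOn f (Set.Icc a b) := by
    apply antitoneOn_of_deriv_nonpos (convex_Icc a b)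
    · exact fun x _ => (hf x).continuousAt.continuousWithinAt
    · exact fun x _ => (hf x).differentiableAt.differentiableWithinAt
    · intro x hx
      rw [interior_Icc] at hx
      rw [(hf x).deriv]
      exact h x hx.1.le hx.2.le
  exact h1 (Set.left_mem_Icc.2 hab) (Set.right_mem_Icc.2 hab) hab

lemma mono_of {f f' : ℝ → ℝ} (hf : ∀ x, HasDerivAt f (f' x) x) {a b : ℝ} (hab : a ≤ b)
    (h : ∀ x, a ≤ x → x ≤ b → 0 ≤ f' x) : f a ≤ f b := by
  have := anti_of (f := fun x => -f x) (f' := fun x => -f' x) (fun x => (hf x).neg) hab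
    (fun x h1 h2 => by have := h x h1 h2; linarith)
  linarith

/-- expansion of `E` near the saddle point -/
lemma EE_expand {X Y B : ℝ} (hS : SP X Y B) {τ : ℝ} (hτ : |τ| ≤ 0.005 / B) :
    ‖EE (((X : ℂ) - Y * I)⁻¹ + τ * I) - EE ((X : ℂ) - Y * I)⁻¹ -
      τ * (I * deriv EE ((X : ℂ) - Y * I)⁻¹)‖ ≤ 0.00365 * B ^ 3 * |τ| := by
  set w := ((X : ℂ) - Y * I)⁻¹ with hw
  have hB0 := hS.hB0
  have hd : 0 ≤ 0.005 / B := by positivity
  have hnear : ∀ x ∈ Set.Icc (-(0.005 / B)) (0.005 / B), ‖(w + x * I) - w‖ ≤ 0.005 / B := by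
    intro x hx
    rw [add_sub_cancel_left, norm_mul, Complex.norm_I, mul_one, Complex.norm_real, Real.norm_eq_abs]
    exact abs_le.2 hx
  have h1 : ∀ x ∈ Set.Icc (-(0.005 / B)) (0.005 / B), HasDerivWithinAt
      (fun x : ℝ => EE (w + x * I) - x * (I * deriv EE w))
      (deriv EE (w + x * I) * I - I * deriv EE w) (Set.Icc (-(0.005 / B)) (0.005 / B)) x := by
    intro x hx
    have h2 := (deriv_var hS (hnear x hx)).1
    have h3 : HasDerivAt (fun x : ℝ => w + x * I) I x := by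
      simpa using ((hasDerivAt_id x).ofReal_comp.mul_const I).const_add w
    have h4 := (EE_differentiableAt h2).hasDerivAt.comp x h3
    have h5 : HasDerivAt (fun x : ℝ => (x : ℂ) * (I * deriv EE w)) (I * deriv EE w) x := by
      simpa using (hasDerivAt_id x).ofReal_comp.mul_const (I * deriv EE w)
    exact (h4.sub h5).hasDerivWithinAt
  have h6 : ∀ x ∈ Set.Icc (-(0.005 / B)) (0.005 / B),
      ‖deriv EE (w + x * I) * I - I * deriv EE w‖ ≤ 0.00365 * B ^ 3 := by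
    intro x hx
    have h2 := (deriv_var hS (hnear x hx)).2
    have e : deriv EE (w + x * I) * I - I * deriv EE w = I * (deriv EE (w + x * I) - deriv EE w) := by
      ring
    rw [e, norm_mul, Complex.norm_I, one_mul]
    exact h2
  have h7 := (convex_Icc (-(0.005 / B)) (0.005 / B)).norm_image_sub_le_of_norm_hasDerivWithin_le h1 h6
    (x := 0) (y := τ) ⟨by linarith, hd⟩ (abs_le.1 hτ)
  rw [sub_zero, Real.norm_eq_abs] at h7
  have e : EE (w + τ * I) - EE w - τ * (I * deriv EE w) = (EE (w + τ * I) - τ * (I * deriv EE w)) -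
      (EE (w + ((0 : ℝ) : ℂ) * I) - ((0 : ℝ) : ℂ) * (I * deriv EE w)) := by
    rw [Complex.ofReal_zero, zero_mul, zero_mul, add_zero, sub_zero]
    ring
  rw [e]
  exact h7

/-- the real part of `E` in the window -/
lemma window_re {X Y B : ℝ} (hS : SP X Y B) (hE : (EE ((X : ℂ) - Y * I)⁻¹).re = 0) {τ : ℝ}
    (hτ : |τ| ≤ 0.005 / B) :
    |(EE (((X : ℂ) - Y * I)⁻¹ + τ * I)).re + τ * (deriv EE ((X : ℂ) - Y * I)⁻¹).im| ≤
      1 / 8 * (deriv EE ((X : ℂ) - Y * I)⁻¹).im * |τ| := by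
  have h1 := EE_expand hS hτ
  obtain ⟨h2, _, _⟩ := deriv_at hS
  set w := ((X : ℂ) - Y * I)⁻¹ with hw
  have h3 := (Complex.abs_re_le_norm _).trans h1
  rw [Complex.sub_re, Complex.sub_re, hE, Complex.re_ofReal_mul, Complex.I_mul_re] at h3
  have e : (EE (w + τ * I)).re - 0 - τ * -(deriv EE w).im = (EE (w + τ * I)).re + τ * (deriv EE w).im := by
    ring
  rw [e] at h3
  refine h3.trans ?_
  have hB3 : 0 < B ^ 3 := pow_pos hS.hB0 3
  apply mul_le_mul_of_nonneg_right _ (abs_nonneg τ)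
  linarith

lemma line_saddle {X Y B : ℝ} (hS : SP X Y B) (x : ℝ) :
    (((X / B ^ 2 : ℝ) : ℂ) + (x : ℂ) * I) = ((X : ℂ) - Y * I)⁻¹ + ((x - Y / B ^ 2 : ℝ) : ℂ) * I := by
  rw [Hinv hS]
  push_cast
  ring

lemma s_star {X Y B : ℝ} (hS : SP X Y B) : (X / B ^ 2) ^ 2 + (Y / B ^ 2) ^ 2 = 1 / B ^ 2 := by
  have hB := hS.hB
  have hB0 := hS.hB0
  have : (X / B ^ 2) ^ 2 + (Y / B ^ 2) ^ 2 = (X ^ 2 + Y ^ 2) / (B ^ 2 * B ^ 2) := by field_simp
  rw [this, ← hB]
  field_simp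

lemma xi_d {X Y B : ℝ} (hS : SP X Y B) : 0.42 * (0.005 / B ^ 2) ≤ (Y / B ^ 2) * (0.005 / B) := by
  have hB0 := hS.hB0
  have hY := hS.Y_ge
  have e1 : (Y / B ^ 2) * (0.005 / B) = Y * (0.005 / B ^ 3) := by field_simp
  have e2 : 0.42 * (0.005 / B ^ 2) = (0.42 * B) * (0.005 / B ^ 3) := by field_simp
  rw [e1, e2]
  gcongr

/-- `Re E ≤ 0` to the right of the saddle point -/
lemma re_nonpos {X Y B : ℝ} (hS : SP X Y B) (hE : (EE ((X : ℂ) - Y * I)⁻¹).re = 0) {x : ℝ}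
    (hx : Y / B ^ 2 ≤ x) (hu : 0.65 * ((X / B ^ 2) ^ 2 + x ^ 2) ≤ X / B ^ 2) :
    (EE (((X / B ^ 2 : ℝ) : ℂ) + (x : ℂ) * I)).re ≤ 0 := by
  have hB0 := hS.hB0
  rcases le_or_gt (x - Y / B ^ 2) (0.005 / B) with h | h
  · have h0 : 0 ≤ x - Y / B ^ 2 := by linarith
    have h1 := window_re hS hE (τ := x - Y / B ^ 2) (by rwa [abs_of_nonneg h0])
    rw [← line_saddle hS, abs_of_nonneg h0, abs_le] at h1
    obtain ⟨h2, _, _⟩ := deriv_at hS
    have h3 : 0 ≤ (x - Y / B ^ 2) * (deriv EE ((X : ℂ) - Y * I)⁻¹).im :=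
      mul_nonneg h0 (le_trans (by positivity) h2)
    linarith [h1.2]
  · apply re_neg hS hE
    · rw [line_re]
    · rw [line_normSq]
      have h1 := s_star hS
      have h2 := xi_d hS
      have h3 : (Y / B ^ 2) ^ 2 + 2 * ((Y / B ^ 2) * (0.005 / B)) ≤ x ^ 2 := by
        have h4 : 0 ≤ Y / B ^ 2 := by have := hS.hY; positivity
        have h5 : 0 < 0.005 / B := by positivity
        nlinarith
      have h4 : 0.42 * (0.005 / B ^ 2) = 0.0021 * (1 / B ^ 2) := by ring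
      linarith
    · rw [line_re, line_normSq]
      exact hu

/-- `0 ≤ Re E` to the left of the saddle point -/
lemma re_nonneg {X Y B : ℝ} (hS : SP X Y B) (hE : (EE ((X : ℂ) - Y * I)⁻¹).re = 0) {x : ℝ}
    (hx0 : 0 ≤ x) (hx : x ≤ Y / B ^ 2) :
    0 ≤ (EE (((X / B ^ 2 : ℝ) : ℂ) + (x : ℂ) * I)).re := by
  have hB0 := hS.hB0
  rcases le_or_gt (-(0.005 / B)) (x - Y / B ^ 2) with h | h
  · have h0 : x - Y / B ^ 2 ≤ 0 := by linarith
    have h1 := window_re hS hE (τ := x - Y / B ^ 2) (by rw [abs_of_nonpos h0]; linarith)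
    rw [← line_saddle hS, abs_of_nonpos h0, abs_le] at h1
    obtain ⟨h2, _, _⟩ := deriv_at hS
    have h3 : 0 ≤ -(x - Y / B ^ 2) * (deriv EE ((X : ℂ) - Y * I)⁻¹).im :=
      mul_nonneg (by linarith) (le_trans (by positivity) h2)
    linarith [h1.1]
  · apply re_pos hS hE
    · rw [line_re]
    · rw [line_normSq]
      have h1 := s_star hS
      have h2 := xi_d hS
      have h3 : x ^ 2 ≤ (Y / B ^ 2) ^ 2 - 2 * ((Y / B ^ 2) * (0.005 / B)) + (0.005 / B) ^ 2 := by
        have h5 : 0 < 0.005 / B := by positivity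
        nlinarith
      have h4 : 0.42 * (0.005 / B ^ 2) = 0.0021 * (1 / B ^ 2) := by ring
      have h5 : (0.005 / B) ^ 2 = 0.000025 * (1 / B ^ 2) := by
        rw [div_pow]; ring
      have h6 : 0 < 1 / B ^ 2 := by positivity
      linarith

/-- the gap in the window -/
lemma window_gap {X Y B : ℝ} (hS : SP X Y B) (hE : (EE ((X : ℂ) - Y * I)⁻¹).re = 0) :
    UU (X / B ^ 2) (Y / B ^ 2 + 0.005 / B) ≤ UU (X / B ^ 2) (Y / B ^ 2) - 2.3e-6 * B ∧
    UU (X / B ^ 2) (Y / B ^ 2 - 0.005 / B) ≤ UU (X / B ^ 2) (Y / B ^ 2) - 2.3e-6 * B := by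
  have hB0 := hS.hB0
  have hX := hS.hX
  have hy : 0 < X / B ^ 2 := by positivity
  obtain ⟨hI, _, _⟩ := deriv_at hS
  set J := (deriv EE ((X : ℂ) - Y * I)⁻¹).im with hJ
  set y := X / B ^ 2 with hydef
  set ξs := Y / B ^ 2 with hξs
  have hd0 : 0 < 0.005 / B := by positivity
  have hJ0 : 0 ≤ J := le_trans (by positivity) hI
  have hf : ∀ x : ℝ, HasDerivAt (fun x => UU y x + 7 / 8 * π * J * (x - ξs) ^ 2)
      (2 * π * (EE ((y : ℂ) + x * I)).re + 7 / 8 * π * J * (2 * (x - ξs))) x := by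
    intro x
    have h1 := hasDerivAt_UU hy x
    have h2 : HasDerivAt (fun x : ℝ => (x - ξs) ^ 2) (2 * (x - ξs)) x := by
      have h3 : HasDerivAt (fun x : ℝ => x - ξs) 1 x := (hasDerivAt_id x).sub_const ξs
      have h4 := h3.mul h3
      have e : (fun x : ℝ => (x - ξs) ^ 2) = (fun x : ℝ => x - ξs) * (fun x : ℝ => x - ξs) := by
        funext z
        rw [Pi.mul_apply]
        ring
      rw [e]
      exact h4.congr_deriv (by ring)
    exact h1.add (h2.const_mul (7 / 8 * π * J))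
  have hwin : ∀ x : ℝ, |x - ξs| ≤ 0.005 / B → |(EE ((y : ℂ) + x * I)).re + (x - ξs) * J| ≤
      1 / 8 * J * |x - ξs| := by
    intro x hx
    have h1 := window_re hS hE (τ := x - ξs) hx
    rwa [← line_saddle hS] at h1
  have hpi := Real.pi_gt_d6
  have hval : 2.3e-6 * B ≤ 7 / 8 * π * J * (0.005 / B) ^ 2 := by
    have h1 : 7 / 8 * 3.141592 * (0.034 * B ^ 3) * (0.005 / B) ^ 2 ≤ 7 / 8 * π * J * (0.005 / B) ^ 2 := by
      gcongr
    have h2 : 7 / 8 * 3.141592 * (0.034 * B ^ 3) * (0.005 / B) ^ 2 =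
      (7 / 8 * 3.141592 * 0.034 * 0.000025) * B := by
      field_simp
      norm_num
    rw [h2] at h1
    refine le_trans ?_ h1
    gcongr
    norm_num
  have hpiJ : 0 ≤ π * J := by positivity
  constructor
  · have h1 := anti_of hf (a := ξs) (b := ξs + 0.005 / B) (by linarith) (by
      intro x hx1 hx2
      have h0 : 0 ≤ x - ξs := by linarith
      have h2 := hwin x (by rw [abs_of_nonneg h0]; linarith)
      rw [abs_of_nonneg h0, abs_le] at h2
      have h3 : (EE ((y : ℂ) + x * I)).re ≤ -(7 / 8 * J * (x - ξs)) := by linarith [h2.2]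
      have h4 : 2 * π * (EE ((y : ℂ) + x * I)).re ≤ 2 * π * (-(7 / 8 * J * (x - ξs))) := by gcongr
      linarith)
    simp only [add_sub_cancel_left, sub_self] at h1
    linarith
  · have h1 := mono_of hf (a := ξs - 0.005 / B) (b := ξs) (by linarith) (by
      intro x hx1 hx2
      have h0 : x - ξs ≤ 0 := by linarith
      have h2 := hwin x (by rw [abs_of_nonpos h0]; linarith)
      rw [abs_of_nonpos h0, abs_le] at h2
      have h3 : -(7 / 8 * J * (x - ξs)) ≤ (EE ((y : ℂ) + x * I)).re := by linarith [h2.1]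
      have h4 : 2 * π * (-(7 / 8 * J * (x - ξs))) ≤ 2 * π * (EE ((y : ℂ) + x * I)).re := by gcongr
      linarith)
    have e : (ξs - 0.005 / B - ξs) ^ 2 = (0.005 / B) ^ 2 := by ring
    simp only [sub_self] at h1
    rw [e] at h1
    linarith

/-- `U` is nonnegative to the left of the saddle point -/
lemma UU_left {X Y B : ℝ} (hS : SP X Y B) (hE : (EE ((X : ℂ) - Y * I)⁻¹).re = 0) {x : ℝ}
    (hx0 : 0 ≤ x) (hx : x ≤ Y / B ^ 2) : 0 ≤ UU (X / B ^ 2) x := by
  have hB0 := hS.hB0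
  have hX := hS.hX
  have hy : 0 < X / B ^ 2 := by positivity
  have h1 := mono_of (hasDerivAt_UU hy) (a := 0) (b := x) hx0 (by
    intro z hz1 hz2
    have := re_nonneg hS hE hz1 (hz2.trans hx)
    have := Real.pi_pos
    positivity)
  rwa [UU_zero] at h1

lemma xi_sub {X Y B : ℝ} (hS : SP X Y B) : 0.005 / B ≤ Y / B ^ 2 ∧ Y / B ^ 2 + 0.005 / B ≤ 1 / 2 := by
  have hB0 := hS.hB0
  have hY := hS.Y_ge
  have hB := hS.B_ge
  have hX := hS.hX
  have hBB := hS.hB
  have h1 := hS.h1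
  constructor
  · rw [div_le_div_iff₀ hB0 (by positivity)]
    nlinarith
  · have h2 : Y / B ^ 2 ≤ 0.2877 := by
      rw [div_le_iff₀ (by positivity), hBB]
      nlinarith [sq_nonneg (X - Y)]
    have h3 : 0.005 / B ≤ 0.005 := div_le_self (by norm_num) (by linarith)
    linarith

/-- `U` decreases to the right of the saddle point -/
lemma UU_right {X Y B : ℝ} (hS : SP X Y B) (hE : (EE ((X : ℂ) - Y * I)⁻¹).re = 0) {a b : ℝ}
    (ha : Y / B ^ 2 ≤ a) (hab : a ≤ b) (hb : 0.65 * ((X / B ^ 2) ^ 2 + b ^ 2) ≤ X / B ^ 2) :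
    UU (X / B ^ 2) b ≤ UU (X / B ^ 2) a := by
  have hB0 := hS.hB0
  have hX := hS.hX
  have hY := hS.hY
  have hy : 0 < X / B ^ 2 := by positivity
  have hξ : 0 ≤ Y / B ^ 2 := by positivity
  refine anti_of (hasDerivAt_UU hy) hab ?_
  intro x hx1 hx2
  have h1 : x ^ 2 ≤ b ^ 2 := by
    apply pow_le_pow_left₀ (by linarith) hx2
  have h2 := re_nonpos hS hE (x := x) (by linarith) (by linarith)
  have := Real.pi_pos
  exact mul_nonpos_of_nonneg_of_nonpos (by positivity) h2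

/-- value in the far region -/
lemma UU_far {X Y B : ℝ} (hS : SP X Y B) (hE : (EE ((X : ℂ) - Y * I)⁻¹).re = 0) {ξ : ℝ}
    (hξ : 0 < ξ) (hξ2 : ξ ≤ 1 / 2) (hu : X / B ^ 2 ≤ 0.65 * ((X / B ^ 2) ^ 2 + ξ ^ 2)) :
    |UU (X / B ^ 2) ξ| ≤ UU (X / B ^ 2) (Y / B ^ 2) - 2.3e-6 * B := by
  have hB0 := hS.hB0
  have hX := hS.hX
  have hY := hS.hY
  have h1 := hS.h1
  have hBB := hS.hB
  have hy : 0 < X / B ^ 2 := by positivity
  have hy2 := y_le hS
  have h3 := region hy hy2 hξ hξ2 hu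
  have hyξ : Y / B ^ 2 ≤ X / B ^ 2 := by
    gcongr
    linarith
  have h4 := UU_right hS hE (a := Y / B ^ 2) (b := X / B ^ 2) le_rfl hyξ (by nlinarith)
  have h5 : 2.3e-6 * B ≤ 0.01 / (X / B ^ 2) := by
    rw [le_div_iff₀ hy]
    have h6 : B * (X / B ^ 2) ≤ 1 := by
      have e : B * (X / B ^ 2) = X / B := by field_simp
      rw [e, div_le_one hB0]
      nlinarith
    nlinarith
  linarith

/-- `-U` is bounded -/
lemma UU_lower {X Y B : ℝ} (hS : SP X Y B) (hE : (EE ((X : ℂ) - Y * I)⁻¹).re = 0) {ξ : ℝ}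
    (hξ : 0 ≤ ξ) (hξ2 : ξ ≤ 1 / 2) :
    -UU (X / B ^ 2) ξ ≤ UU (X / B ^ 2) (Y / B ^ 2) - 2.3e-6 * B := by
  have hB0 := hS.hB0
  have hX := hS.hX
  have hy : 0 < X / B ^ 2 := by positivity
  obtain ⟨hx1, hx2⟩ := xi_sub hS
  have hd0 : 0 < 0.005 / B := by positivity
  have hpos : 0 ≤ UU (X / B ^ 2) (Y / B ^ 2) - 2.3e-6 * B := by
    have h1 := UU_left hS hE (x := Y / B ^ 2 - 0.005 / B) (by linarith) (by linarith)
    linarith [(window_gap hS hE).2]
  rcases le_or_gt ξ (Y / B ^ 2) with h | h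
  · linarith [UU_left hS hE hξ h]
  rcases le_or_gt (X / B ^ 2) (0.65 * ((X / B ^ 2) ^ 2 + ξ ^ 2)) with h' | h'
  · have := UU_far hS hE (by linarith) hξ2 h'
    rw [abs_le] at this
    linarith [this.1]
  rcases le_or_gt (0.65 * ((X / B ^ 2) ^ 2 + (1 / 2) ^ 2)) (X / B ^ 2) with h'' | h''
  · have := UU_right hS hE h.le hξ2 h''
    rw [UU_half] at this
    linarith
  · have hright := fun z => UU_right hS hE (a := ξ) (b := z) h.le
    have hfar := fun z => UU_far hS hE (ξ := z)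
    have hξ0 : 0 < ξ := by linarith
    generalize X / B ^ 2 = y at *
    set z := Real.sqrt (20 / 13 * y - y ^ 2) with hz
    have h0 : 0 ≤ 20 / 13 * y - y ^ 2 := by
      have := sq_nonneg ξ
      linarith
    have hz2 : z ^ 2 = 20 / 13 * y - y ^ 2 := Real.sq_sqrt h0
    have hξz : ξ ≤ z := Real.le_sqrt_of_sq_le (by linarith)
    have hz3 : z ≤ 1 / 2 := Real.sqrt_le_iff.2 ⟨by norm_num, by linarith⟩
    have h1 := hright z hξz (by linarith)
    have h2 := hfar z (by linarith) hz3 (by linarith)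
    rw [abs_le] at h2
    linarith [h2.1]

/-- the gap -/
theorem UU_gap {X Y B : ℝ} (hS : SP X Y B) (hE : (EE ((X : ℂ) - Y * I)⁻¹).re = 0) {ξ : ℝ}
    (h1 : -(1 / 2) ≤ ξ) (h2 : ξ ≤ 1 / 2) (hout : 0.005 / B ≤ |ξ - Y / B ^ 2|) :
    UU (X / B ^ 2) ξ ≤ UU (X / B ^ 2) (Y / B ^ 2) - 2.3e-6 * B := by
  have hB0 := hS.hB0
  have hX := hS.hX
  have hy : 0 < X / B ^ 2 := by positivity
  have hd0 : 0 < 0.005 / B := by positivity
  obtain ⟨hg1, hg2⟩ := window_gap hS hE
  rcases le_or_gt 0 ξ with h | h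
  · rcases le_or_gt ξ (Y / B ^ 2) with h' | h'
    · rw [abs_of_nonpos (by linarith)] at hout
      have h3 := mono_of (hasDerivAt_UU hy) (a := ξ) (b := Y / B ^ 2 - 0.005 / B) (by linarith) (by
        intro z hz1 hz2
        have := re_nonneg hS hE (x := z) (by linarith) (by linarith)
        have := Real.pi_pos
        positivity)
      linarith
    · rw [abs_of_pos (by linarith)] at hout
      have hξ0 : 0 ≤ Y / B ^ 2 := by
        have := hS.hY
        positivity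
      rcases le_or_gt (X / B ^ 2) (0.65 * ((X / B ^ 2) ^ 2 + ξ ^ 2)) with h'' | h''
      · have := UU_far hS hE (by linarith) h2 h''
        rw [abs_le] at this
        linarith [this.2]
      · have := UU_right hS hE (a := Y / B ^ 2 + 0.005 / B) (b := ξ) (by linarith) (by linarith) h''.le
        linarith
  · have h3 := UU_lower hS hE (ξ := -ξ) (by linarith) (by linarith)
    rw [UU_neg, neg_neg] at h3
    exact h3

end Pool.Agent.N809.DA
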