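import Pool.Agent.N809.DA.Saddle

/-!
# The derivative of `E` near the saddle point
-/

set_option autoImplicit false

namespace Pool.Agent.N809.DA

open Complex Finset Filter Topology
open scoped Real

lemma deriv_EE {w : ℂ} (hw : 0 < w.re) : deriv EE w =
    (-(w⁻¹) ^ 3 / 12 + (w⁻¹) ^ 2 / (4 * π)) +
      (2 * (w⁻¹) ^ 3 * EE w⁻¹ + (w⁻¹) ^ 4 * deriv EE w⁻¹) := by
  have hw0 : w ≠ 0 := by
    rintro rfl
    simp at hw
  have hev : EE =ᶠ[𝓝 w] fun w => ((w⁻¹) ^ 2 + 1) / 24 - w⁻¹ / (4 * π) - (w⁻¹) ^ 2 * EE w⁻¹ := by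
    filter_upwards [(isOpen_lt continuous_const Complex.continuous_re).mem_nhds hw] with z hz
    exact EE_trans hz
  have h2 : HasDerivAt (fun w : ℂ => w⁻¹) (-(w ^ 2)⁻¹) w := hasDerivAt_inv hw0
  have h3 : HasDerivAt (fun w : ℂ => EE w⁻¹) (deriv EE w⁻¹ * (-(w ^ 2)⁻¹)) w :=
    (EE_differentiableAt (inv_re_pos hw)).hasDerivAt.comp w h2
  have h4 := ((((h2.pow 2).add_const (1 : ℂ)).div_const 24).sub (h2.div_const (4 * (π : ℂ)))).sub
    ((h2.pow 2).mul h3)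
  rw [hev.deriv_eq]
  have h5 : deriv (fun w => ((w⁻¹) ^ 2 + 1) / 24 - w⁻¹ / (4 * π) - (w⁻¹) ^ 2 * EE w⁻¹) w = _ :=
    h4.deriv
  rw [h5]
  have e1 : (w ^ 2)⁻¹ = (w⁻¹) ^ 2 := (inv_pow w 2).symm
  have hpi : (π : ℂ) ≠ 0 := by exact_mod_cast Real.pi_ne_zero
  simp only [e1, Pi.pow_apply]
  generalize w⁻¹ = h
  push_cast
  field_simp
  ring

lemma norm_deriv_EE_le {h : ℂ} (hre : 1.72 ≤ h.re) :
    ‖deriv EE h‖ ≤ 17.2 * Real.exp (-(2 * π * h.re)) := by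
  have hd : DiffContOnCl ℂ EE (Metric.ball h 0.15) := by
    apply DifferentiableOn.diffContOnCl
    rw [closure_ball _ (by norm_num)]
    intro z hz
    rw [mem_closedBall_iff_norm] at hz
    have := Complex.abs_re_le_norm (z - h)
    rw [Complex.sub_re, abs_le] at this
    exact (EE_differentiableAt (by linarith)).differentiableWithinAt
  have hpos := Real.exp_pos (-(2 * π * h.re))
  have hC : ∀ z ∈ Metric.sphere h (0.15 : ℝ), ‖EE z‖ ≤ 2.58 * Real.exp (-(2 * π * h.re)) := by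
    intro z hz
    rw [mem_sphere_iff_norm] at hz
    have h1 := Complex.abs_re_le_norm (z - h)
    rw [Complex.sub_re, hz, abs_le] at h1
    have h2 := norm_EE_le (w := z) (r := 0.00009) (e154 (by linarith)) (by norm_num)
    refine h2.trans ?_
    have h3 : Real.exp (-(2 * π * z.re)) ≤ Real.exp (-(2 * π * h.re)) * 2.5675 := by
      have h4 : -(2 * π * z.re) ≤ -(2 * π * h.re) + 0.9425 := by
        have := Real.pi_lt_d6
        have := Real.pi_pos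
        nlinarith
      refine (Real.exp_le_exp.2 h4).trans ?_
      rw [Real.exp_add]
      gcongr
      have h5 : Real.exp 0.9425 * Real.exp 0.0575 = Real.exp 1 := by
        rw [← Real.exp_add]
        norm_num
      have h6 := Real.exp_one_lt_d9
      have h7 : 1 + 0.0575 + 0.0575 ^ 2 / 2 ≤ Real.exp 0.0575 :=
        Real.quadratic_le_exp_of_nonneg (by norm_num)
      have h8 := Real.exp_pos 0.9425
      nlinarith
    calc Real.exp (-(2 * π * z.re)) / (1 - 3 * 0.00009)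
        ≤ (Real.exp (-(2 * π * h.re)) * 2.5675) / (1 - 3 * 0.00009) := by gcongr
      _ ≤ 2.58 * Real.exp (-(2 * π * h.re)) := by
          rw [div_le_iff₀ (by norm_num)]
          nlinarith
  have h := Complex.norm_deriv_le_of_forall_mem_sphere_norm_le (by norm_num) hd hC
  refine h.trans ?_
  rw [div_le_iff₀ (by norm_num)]
  nlinarith

/-- the hypotheses on the saddle point -/
structure SP (X Y B : ℝ) : Prop where
  hX : 1.738 ≤ X
  hY : 0.837 ≤ Y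
  h1 : 0.89 ≤ X - Y
  h2 : X - Y ≤ 0.966
  hB : B ^ 2 = X ^ 2 + Y ^ 2
  hB0 : 0 < B

lemma SP.B_ge {X Y B : ℝ} (h : SP X Y B) : 1.92 ≤ B := by
  have := h.hX
  have := h.hY
  have := h.hB
  have := h.hB0
  nlinarith

lemma SP.Y_ge {X Y B : ℝ} (h : SP X Y B) : 0.42 * B ≤ Y := by
  have hX := h.hX
  have hY := h.hY
  have h2 := h.h2
  have hB := h.hB
  have hB0 := h.hB0
  have h3 : 0.4628 * X ≤ Y := by
    rcases le_or_gt X 1.8 with h | h
    · linarith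
    · linarith
  refine (sq_le_sq₀ ?_ ?_).1 ?_
  · positivity
  · linarith
  nlinarith

lemma SP.B_le {X Y B : ℝ} (h : SP X Y B) : B ≤ 1.4143 * X := by
  have hX := h.hX
  have hY := h.hY
  have h1 := h.h1
  have hB := h.hB
  have hB0 := h.hB0
  refine (sq_le_sq₀ ?_ ?_).1 ?_
  · positivity
  · linarith
  nlinarith

/-- the remainder in the derivative is small -/
lemma rem_le {X Y B : ℝ} (hS : SP X Y B) {h : ℂ} (hn : ‖h‖ ≤ 1.00503 * B)
    (hre : 0.99 * X ≤ h.re) : ‖2 * h ^ 3 * EE h + h ^ 4 * deriv EE h‖ ≤ 0.000965 * B ^ 3 := by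
  have hX := hS.hX
  have hB0 := hS.hB0
  have hBX := hS.B_le
  have h172 : 1.72 ≤ h.re := by linarith
  have he : Real.exp (-(2 * π * h.re)) ≤ Real.exp (-(2 * π * (0.99 * X))) := by
    apply Real.exp_le_exp.2
    have := Real.pi_pos
    nlinarith
  have hXe := X_exp_le hX
  set e := Real.exp (-(2 * π * (0.99 * X))) with he'
  have he0 : 0 < e := Real.exp_pos _
  have he1 : e ≤ 0.0000213 := by nlinarith
  have he2 : B * e ≤ 0.00005234 := by nlinarith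
  have h1 := norm_EE_le' h172
  have h2 := norm_deriv_EE_le h172
  have h3 : ‖h‖ ^ 3 ≤ 1.0152 * B ^ 3 := by
    calc ‖h‖ ^ 3 ≤ (1.00503 * B) ^ 3 := by gcongr
      _ = 1.00503 ^ 3 * B ^ 3 := by ring
      _ ≤ 1.0152 * B ^ 3 := by gcongr; norm_num
  have h4 : ‖h‖ ^ 4 ≤ 1.0203 * B ^ 4 := by
    calc ‖h‖ ^ 4 ≤ (1.00503 * B) ^ 4 := by gcongr
      _ = 1.00503 ^ 4 * B ^ 4 := by ring
      _ ≤ 1.0203 * B ^ 4 := by gcongr; norm_num
  refine (norm_add_le _ _).trans ?_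
  rw [norm_mul, norm_mul, norm_mul, norm_pow, norm_pow]
  have h22 : ‖(2 : ℂ)‖ = 2 := by simp
  rw [h22]
  calc 2 * ‖h‖ ^ 3 * ‖EE h‖ + ‖h‖ ^ 4 * ‖deriv EE h‖
      ≤ 2 * (1.0152 * B ^ 3) * (1.001 * e) + 1.0203 * B ^ 4 * (17.2 * e) := by
        gcongr
        · exact h1.trans (by gcongr)
        · exact h2.trans (by gcongr)
    _ = B ^ 3 * (2 * 1.0152 * 1.001 * e + 1.0203 * 17.2 * (B * e)) := by ring
    _ ≤ B ^ 3 * 0.000965 := by
        gcongr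
        linarith
    _ = _ := by ring

/-- the saddle point -/
lemma norm_H {X Y B : ℝ} (hS : SP X Y B) : ‖(X : ℂ) - Y * I‖ = B := by
  have h1 : ‖(X : ℂ) - Y * I‖ ^ 2 = B ^ 2 := by
    rw [← Complex.normSq_eq_norm_sq, Complex.normSq_apply, hS.hB]
    simp
    ring
  exact (pow_left_inj₀ (norm_nonneg _) hS.hB0.le two_ne_zero).1 h1

/-- near the saddle point -/
lemma near_saddle {X Y B : ℝ} (hS : SP X Y B) {w : ℂ}
    (hw : ‖w - ((X : ℂ) - Y * I)⁻¹‖ ≤ 0.005 / B) :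
    w ≠ 0 ∧ ‖w⁻¹‖ ≤ 1.00503 * B ∧ ‖w⁻¹ - ((X : ℂ) - Y * I)‖ ≤ 0.005026 * B ∧ 0.99 * X ≤ (w⁻¹).re := by
  set H : ℂ := (X : ℂ) - Y * I with hH
  have hHn : ‖H‖ = B := norm_H hS
  have hB0 := hS.hB0
  have hH0 : H ≠ 0 := norm_ne_zero_iff.1 (by rw [hHn]; exact hB0.ne')
  have h1 : 0.995 / B ≤ ‖w‖ := by
    have h2 := norm_sub_norm_le (H⁻¹) w
    rw [norm_inv, hHn, norm_sub_rev] at h2
    have h3 : (B : ℝ)⁻¹ = 1 / B := (one_div B).symm
    rw [h3] at h2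
    have h4 : 1 / B - 0.005 / B = 0.995 / B := by ring
    linarith
  have hw0 : w ≠ 0 := by
    rintro rfl
    rw [norm_zero] at h1
    have : 0 < 0.995 / B := by positivity
    linarith
  have hwn : ‖w⁻¹‖ ≤ 1.00503 * B := by
    rw [norm_inv]
    calc ‖w‖⁻¹ ≤ (0.995 / B)⁻¹ := inv_anti₀ (by positivity) h1
      _ = B / 0.995 := inv_div _ _
      _ ≤ 1.00503 * B := by
          rw [div_le_iff₀ (by norm_num)]
          nlinarith
  have hdist : ‖w⁻¹ - H‖ ≤ 0.005026 * B := by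
    have e : w⁻¹ - H = w⁻¹ * H * (H⁻¹ - w) := by
      field_simp
    rw [e, norm_mul, norm_mul, hHn, norm_sub_rev]
    calc ‖w⁻¹‖ * B * ‖w - H⁻¹‖ ≤ (1.00503 * B) * B * (0.005 / B) := by gcongr
      _ = 1.00503 * 0.005 * B := by field_simp
      _ ≤ 0.005026 * B := by gcongr; norm_num
  refine ⟨hw0, hwn, hdist, ?_⟩
  have h5 := Complex.abs_re_le_norm (w⁻¹ - H)
  rw [Complex.sub_re, abs_le] at h5
  have h6 : H.re = X := by rw [hH]; simp
  rw [h6] at h5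
  have h7 := hS.B_le
  have h8 := hS.hX
  nlinarith

lemma re_pos_of_inv {w : ℂ} (h : 0 < (w⁻¹).re) : 0 < w.re := by
  have := inv_re_pos h
  rwa [inv_inv] at this

/-- variation of the derivative near the saddle point -/
lemma deriv_var {X Y B : ℝ} (hS : SP X Y B) {w : ℂ}
    (hw : ‖w - ((X : ℂ) - Y * I)⁻¹‖ ≤ 0.005 / B) :
    0 < w.re ∧ ‖deriv EE w - deriv EE ((X : ℂ) - Y * I)⁻¹‖ ≤ 0.00365 * B ^ 3 := by
  obtain ⟨hw0, hwn, hdist, hre⟩ := near_saddle hS hw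
  set H : ℂ := (X : ℂ) - Y * I with hH
  have hHn : ‖H‖ = B := norm_H hS
  have hB0 := hS.hB0
  have hB := hS.B_ge
  have hX := hS.hX
  have hHre : H.re = X := by rw [hH]; simp
  have hwre : 0 < w.re := re_pos_of_inv (by linarith)
  have hHre' : 0 < (H⁻¹).re := inv_re_pos (by rw [hHre]; linarith)
  refine ⟨hwre, ?_⟩
  rw [deriv_EE hwre, deriv_EE hHre', inv_inv]
  have r1 := rem_le hS hwn hre
  have r2 := rem_le hS (h := H) (by rw [hHn]; nlinarith) (by rw [hHre]; nlinarith)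
  set h : ℂ := w⁻¹ with hh
  have hpi0 : (π : ℂ) ≠ 0 := by exact_mod_cast Real.pi_ne_zero
  have e1 : (-h ^ 3 / 12 + h ^ 2 / (4 * π)) - (-H ^ 3 / 12 + H ^ 2 / (4 * π)) =
      (h - H) * (-(h ^ 2 + h * H + H ^ 2) / 12 + (h + H) / (4 * π)) := by ring
  have hpi := Real.pi_gt_d6
  have h4pi : ‖(4 * π : ℂ)‖ = 4 * π := by
    rw [norm_mul, Complex.norm_real, Real.norm_of_nonneg Real.pi_pos.le]
    simp
  have r3 : ‖(-h ^ 3 / 12 + h ^ 2 / (4 * π)) - (-H ^ 3 / 12 + H ^ 2 / (4 * π))‖ ≤ 0.001682 * B ^ 3 := by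
    rw [e1, norm_mul]
    have h5 : ‖-(h ^ 2 + h * H + H ^ 2) / 12‖ ≤ 0.2513 * B ^ 2 := by
      rw [norm_div, norm_neg]
      have h12 : ‖(12 : ℂ)‖ = 12 := by simp
      rw [h12, div_le_iff₀ (by norm_num)]
      calc ‖h ^ 2 + h * H + H ^ 2‖ ≤ ‖h‖ ^ 2 + ‖h‖ * ‖H‖ + ‖H‖ ^ 2 := by
            refine (norm_add_le _ _).trans ?_
            gcongr
            · refine (norm_add_le _ _).trans ?_
              rw [norm_pow, norm_mul]
            · rw [norm_pow]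
        _ ≤ (1.00503 * B) ^ 2 + (1.00503 * B) * B + B ^ 2 := by
            rw [hHn]
            gcongr
        _ ≤ 0.2513 * B ^ 2 * 12 := by nlinarith [sq_nonneg B]
    have h6 : ‖(h + H) / (4 * π)‖ ≤ 0.0832 * B ^ 2 := by
      rw [norm_div, h4pi, div_le_iff₀ (by positivity)]
      calc ‖h + H‖ ≤ 1.00503 * B + B := by
            refine (norm_add_le _ _).trans ?_
            rw [hHn]
            gcongr
        _ ≤ 0.0832 * B ^ 2 * (4 * 3.141592) := by nlinarith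
        _ ≤ 0.0832 * B ^ 2 * (4 * π) := by gcongr
    calc ‖h - H‖ * ‖-(h ^ 2 + h * H + H ^ 2) / 12 + (h + H) / (4 * π)‖
        ≤ (0.005026 * B) * (0.2513 * B ^ 2 + 0.0832 * B ^ 2) := by
          gcongr
          exact (norm_add_le _ _).trans (add_le_add h5 h6)
      _ = 0.005026 * 0.3345 * B ^ 3 := by ring
      _ ≤ 0.001682 * B ^ 3 := by gcongr; norm_num
  have e2 : (-h ^ 3 / 12 + h ^ 2 / (4 * π)) + (2 * h ^ 3 * EE h + h ^ 4 * deriv EE h) -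
      ((-H ^ 3 / 12 + H ^ 2 / (4 * π)) + (2 * H ^ 3 * EE H + H ^ 4 * deriv EE H)) =
      ((-h ^ 3 / 12 + h ^ 2 / (4 * π)) - (-H ^ 3 / 12 + H ^ 2 / (4 * π))) +
      ((2 * h ^ 3 * EE h + h ^ 4 * deriv EE h) - (2 * H ^ 3 * EE H + H ^ 4 * deriv EE H)) := by ring
  rw [e2]
  have r4 := (norm_sub_le (2 * h ^ 3 * EE h + h ^ 4 * deriv EE h) (2 * H ^ 3 * EE H + H ^ 4 * deriv EE H))
  refine (norm_add_le _ _).trans ?_
  have : 0 < B ^ 3 := by positivity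
  linarith

/-- the derivative at the saddle point -/
lemma deriv_at {X Y B : ℝ} (hS : SP X Y B) :
    0.034 * B ^ 3 ≤ (deriv EE ((X : ℂ) - Y * I)⁻¹).im ∧
    ‖deriv EE ((X : ℂ) - Y * I)⁻¹‖ ≤ (5 / 3) * (deriv EE ((X : ℂ) - Y * I)⁻¹).im ∧
    ‖deriv EE ((X : ℂ) - Y * I)⁻¹‖ ≤ 0.085 * B ^ 3 := by
  set H : ℂ := (X : ℂ) - Y * I with hH
  have hHn : ‖H‖ = B := norm_H hS
  have hB0 := hS.hB0
  have hB := hS.B_ge
  have hX := hS.hX
  have hY := hS.hY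
  have h1 := hS.h1
  have h2 := hS.h2
  have hYB := hS.Y_ge
  have hBB := hS.hB
  obtain ⟨hp1, hp2, _, _⟩ := pi_bounds
  have hHre : H.re = X := by rw [hH]; simp
  have hHre' : 0 < (H⁻¹).re := inv_re_pos (by rw [hHre]; linarith)
  rw [deriv_EE hHre', inv_inv]
  have r2 := rem_le hS (h := H) (by rw [hHn]; nlinarith) (by rw [hHre]; nlinarith)
  set R := 2 * H ^ 3 * EE H + H ^ 4 * deriv EE H with hR
  have hRim : |R.im| ≤ 0.000965 * B ^ 3 := (Complex.abs_im_le_norm R).trans r2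
  rw [abs_le] at hRim
  have hmain : (-H ^ 3 / 12 + H ^ 2 / (4 * π) : ℂ) = -(H ^ 2 * (H - ((3 / π : ℝ) : ℂ))) / 12 := by
    have hpi : (π : ℂ) ≠ 0 := by exact_mod_cast Real.pi_ne_zero
    push_cast
    field_simp
    ring
  set k : ℝ := 3 / π with hk
  have him : (-(H ^ 2 * (H - (k : ℂ))) / 12 : ℂ).im = Y / 12 * (3 * X ^ 2 - Y ^ 2 - 2 * k * X) := by
    have e : (-(H ^ 2 * (H - (k : ℂ))) / 12 : ℂ) =
        (((-((X ^ 2 - Y ^ 2) * (X - k) - 2 * X * Y * Y) / 12 : ℝ)) : ℂ) +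
        ((Y / 12 * (3 * X ^ 2 - Y ^ 2 - 2 * k * X) : ℝ) : ℂ) * I := by
      rw [hH]
      push_cast
      linear_combination (-(3 * (X : ℂ) * Y ^ 2 - Y ^ 3 * I - k * Y ^ 2) / 12) * I_sq
    rw [e, Complex.add_im, Complex.ofReal_im, Complex.mul_I_im, Complex.ofReal_re, zero_add]
  have hnorm : ‖(-(H ^ 2 * (H - (k : ℂ))) / 12 : ℂ)‖ = B ^ 2 * ‖H - (k : ℂ)‖ / 12 := by
    rw [norm_div, norm_neg, norm_mul, norm_pow, hHn]
    simp
  have hz : ‖H - (k : ℂ)‖ ^ 2 = (X - k) ^ 2 + Y ^ 2 := by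
    rw [← Complex.normSq_eq_norm_sq, Complex.normSq_apply, hH]
    simp
    ring
  have hbr : B ^ 2 ≤ 3 * X ^ 2 - Y ^ 2 - 2 * k * X := by
    rw [hBB]
    nlinarith
  have hz1 : ‖H - (k : ℂ)‖ ≤ 1.43 * Y := by
    refine (sq_le_sq₀ (norm_nonneg _) (by linarith)).1 ?_
    rw [hz]
    nlinarith
  have hz2 : ‖H - (k : ℂ)‖ ≤ B := by
    refine (sq_le_sq₀ (norm_nonneg _) hB0.le).1 ?_
    rw [hz, hBB]
    nlinarith
  rw [hmain]
  have hI : Y / 12 * B ^ 2 - 0.000965 * B ^ 3 ≤ (-(H ^ 2 * (H - (k : ℂ))) / 12 + R).im := by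
    rw [Complex.add_im, him]
    have : Y / 12 * B ^ 2 ≤ Y / 12 * (3 * X ^ 2 - Y ^ 2 - 2 * k * X) := by gcongr
    linarith [hRim.1]
  have hB3 : 0 < B ^ 3 := by positivity
  have hYB2 : 0.42 * B ^ 3 ≤ Y * B ^ 2 := by
    have : 0.42 * B * B ^ 2 ≤ Y * B ^ 2 := by gcongr
    linarith [this, (by ring : 0.42 * B * B ^ 2 = 0.42 * B ^ 3)]
  refine ⟨?_, ?_, ?_⟩
  · linarith
  · refine (norm_add_le _ _).trans ?_
    rw [hnorm]
    have : B ^ 2 * ‖H - (k : ℂ)‖ ≤ B ^ 2 * (1.43 * Y) := by gcongr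
    have e : B ^ 2 * (1.43 * Y) = 1.43 * (Y * B ^ 2) := by ring
    linarith
  · refine (norm_add_le _ _).trans ?_
    rw [hnorm]
    have : B ^ 2 * ‖H - (k : ℂ)‖ ≤ B ^ 2 * B := by gcongr
    have e : B ^ 2 * B = B ^ 3 := by ring
    linarith

end Pool.Agent.N809.DA
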