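import Pool.Agent.N809.DA.Sign

/-!
# The real part of the exponent on the vertical line
-/

set_option autoImplicit false

namespace Pool.Agent.N809.DA

open Complex Finset Filter Topology
open scoped Real ComplexConjugate

/-- minus the imaginary part of `Psi` on the vertical line -/
noncomputable def UU (y ξ : ℝ) : ℝ := -(Psi ((y : ℂ) + ξ * I)).im

lemma line_re (y ξ : ℝ) : ((y : ℂ) + ξ * I).re = y := by simp

lemma line_im (y ξ : ℝ) : ((y : ℂ) + ξ * I).im = ξ := by simp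

lemma line_normSq (y ξ : ℝ) : normSq ((y : ℂ) + ξ * I) = y ^ 2 + ξ ^ 2 := by
  rw [normSq_apply, line_re, line_im]; ring

lemma hasDerivAt_UU {y : ℝ} (hy : 0 < y) (ξ : ℝ) :
    HasDerivAt (UU y) (2 * π * (EE ((y : ℂ) + ξ * I)).re) ξ := by
  have h1 : HasDerivAt (fun ξ : ℝ => (y : ℂ) + ξ * I) I ξ := by
    simpa using ((hasDerivAt_id ξ).ofReal_comp.mul_const I).const_add (y : ℂ)
  have h2 := (hasDerivAt_Psi (w := (y : ℂ) + ξ * I) (by rw [line_re]; exact hy)).comp ξ h1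
  have h3 := (Complex.imCLM.hasFDerivAt.comp_hasDerivAt ξ h2).neg
  have e : -(Complex.imCLM (-(2 * (π : ℂ) * EE ((y : ℂ) + ξ * I)) * I)) =
      2 * π * (EE ((y : ℂ) + ξ * I)).re := by
    rw [Complex.imCLM_apply, Complex.mul_I_im, Complex.neg_re]
    have h4 : (2 * (π : ℂ) * EE ((y : ℂ) + ξ * I)) =
      ((2 * π : ℝ) : ℂ) * EE ((y : ℂ) + ξ * I) := by push_cast; ring
    rw [h4, Complex.re_ofReal_mul, neg_neg]
  rw [e] at h3
  exact h3

lemma Psi_conj (w : ℂ) : Psi (conj w) = conj (Psi w) := by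
  unfold Psi psi
  rw [Complex.conj_tsum]
  apply tsum_congr
  intro k
  have h : cexp (-(2 * π * conj w)) = conj (cexp (-(2 * π * w))) := by
    rw [← Complex.exp_conj]
    simp [map_ofNat]
  rw [h]
  simp

lemma UU_neg (y ξ : ℝ) : UU y (-ξ) = - UU y ξ := by
  unfold UU
  have h : ((y : ℂ) + ((-ξ : ℝ) : ℂ) * I) = conj ((y : ℂ) + ξ * I) := by
    simp
  rw [h, Psi_conj, Complex.conj_im]

lemma UU_zero (y : ℝ) : UU y 0 = 0 := by
  have := UU_neg y 0
  rw [neg_zero] at this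
  linarith

lemma Psi_add_I (w : ℂ) : Psi (w + I) = Psi w := by
  unfold Psi
  congr 1
  have h : -(2 * π * (w + I)) = -(2 * π * w) - 2 * π * I := by ring
  rw [h, Complex.exp_sub, Complex.exp_two_pi_mul_I, div_one]

lemma UU_half (y : ℝ) : UU y (1 / 2) = 0 := by
  have h1 := UU_neg y (1 / 2)
  have h2 : UU y (1 / 2) = UU y (-(1 / 2)) := by
    unfold UU
    have h : ((y : ℂ) + ((1 / 2 : ℝ) : ℂ) * I) = ((y : ℂ) + ((-(1 / 2) : ℝ) : ℂ) * I) + I := by
      push_cast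
      ring
    rw [h, Psi_add_I]
  linarith

/-- the transformation formula for `UU` -/
lemma UU_trans {y ξ : ℝ} (hy : 0 < y) : UU y ξ = π * ξ / (12 * (y ^ 2 + ξ ^ 2)) + π * ξ / 12 -
    arg ((y : ℂ) + ξ * I) / 2 - (Psi ((y : ℂ) + ξ * I)⁻¹).im := by
  unfold UU
  have hw : 0 < ((y : ℂ) + ξ * I).re := by rw [line_re]; exact hy
  rw [psi_trans hw]
  have e1 : (π * ((y : ℂ) + ξ * I)⁻¹ / 12 : ℂ) = ((π / 12 : ℝ) : ℂ) * ((y : ℂ) + ξ * I)⁻¹ := by
    push_cast; ring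
  have e2 : (π * ((y : ℂ) + ξ * I) / 12 : ℂ) = ((π / 12 : ℝ) : ℂ) * ((y : ℂ) + ξ * I) := by
    push_cast; ring
  have e3 : (log ((y : ℂ) + ξ * I) / 2 : ℂ) = ((1 / 2 : ℝ) : ℂ) * log ((y : ℂ) + ξ * I) := by
    push_cast; ring
  rw [e1, e2, e3, Complex.add_im, Complex.add_im, Complex.sub_im, Complex.im_ofReal_mul,
    Complex.im_ofReal_mul, Complex.im_ofReal_mul, Complex.inv_im, Complex.log_im, line_im,
    line_normSq]
  have : 0 < y ^ 2 + ξ ^ 2 := by positivity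
  field_simp
  ring

lemma Psi_inv_im_le {y ξ : ℝ} (hy : 0 < y) : |(Psi ((y : ℂ) + ξ * I)⁻¹).im| ≤
    PsiR (y / (y ^ 2 + ξ ^ 2)) := by
  have hw : 0 < ((y : ℂ) + ξ * I).re := by rw [line_re]; exact hy
  refine (Complex.abs_im_le_norm _).trans ?_
  have := norm_Psi_le (inv_re_pos hw)
  rwa [Complex.inv_re, line_re, line_normSq] at this

lemma arg_bounds {y ξ : ℝ} (hy : 0 < y) (hξ : 0 < ξ) :
    arg ((y : ℂ) + ξ * I) ≤ π / 2 ∧ π / 2 - y / ξ ≤ arg ((y : ℂ) + ξ * I) := by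
  set w := (y : ℂ) + ξ * I with hw
  have hre : w.re = y := line_re y ξ
  have him : w.im = ξ := line_im y ξ
  have h1 : |arg w| < π / 2 := Complex.abs_arg_lt_pi_div_two_iff.2 (Or.inl (by rw [hre]; exact hy))
  have h2 : 0 ≤ arg w := Complex.arg_nonneg_iff.2 (by rw [him]; exact hξ.le)
  rw [abs_of_nonneg h2] at h1
  refine ⟨h1.le, ?_⟩
  have h3 : Real.tan (arg w) = ξ / y := by rw [Complex.tan_arg, hre, him]
  have h4 : 0 < arg w := by
    rcases h2.lt_or_eq with h | h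
    · exact h
    · rw [← h, Real.tan_zero] at h3
      have : 0 < ξ / y := by positivity
      linarith
  have h5 : Real.tan (π / 2 - arg w) = y / ξ := by
    rw [Real.tan_pi_div_two_sub, h3, inv_div]
  have h6 := Real.le_tan (x := π / 2 - arg w) (by linarith) (by linarith)
  rw [h5] at h6
  linarith

lemma arg_diag {y : ℝ} (hy : 0 < y) : arg ((y : ℂ) + y * I) = π / 4 := by
  have h : ((y : ℂ) + y * I) = (y : ℂ) * (1 + I) := by ring
  have h3 : Real.tan (arg ((y : ℂ) + y * I)) = 1 := by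
    rw [Complex.tan_arg, line_re, line_im, div_self hy.ne']
  have h1 : |arg ((y : ℂ) + y * I)| < π / 2 :=
    Complex.abs_arg_lt_pi_div_two_iff.2 (Or.inl (by rw [line_re]; exact hy))
  rw [abs_lt] at h1
  rw [← Real.arctan_tan h1.1 h1.2, h3, Real.arctan_one]

lemma PsiR_le {u : ℝ} (hu : 1.538 ≤ u) : PsiR u ≤ 0.0000901 := by
  have h := e154 hu
  have h0 := Real.exp_pos (-(2 * π * u))
  refine (psiR_le h0.le (by linarith)).trans ?_
  rw [div_le_iff₀ (by linarith)]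
  nlinarith

/-- lower bound at the diagonal point -/
lemma UU_diag {y : ℝ} (hy : 0 < y) (hy2 : y ≤ 0.1848) :
    π / (24 * y) + π * y / 12 - π / 8 - 0.0000901 ≤ UU y y := by
  rw [UU_trans hy, arg_diag hy]
  have h1 := Psi_inv_im_le (ξ := y) hy
  have h2 : y / (y ^ 2 + y ^ 2) = 1 / (2 * y) := by field_simp; ring
  rw [h2] at h1
  have h3 := PsiR_le (u := 1 / (2 * y)) (by rw [le_div_iff₀ (by positivity)]; linarith)
  rw [abs_le] at h1
  have h4 : π * y / (12 * (y ^ 2 + y ^ 2)) = π / (24 * y) := by field_simp; ring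
  rw [h4]
  linarith [h1.2]

lemma log065 : Real.log 0.65 ≤ -0.42 := by
  rw [Real.log_le_iff_le_exp (by norm_num)]
  have h1 := Real.add_one_le_exp (-0.02 : ℝ)
  have h2 : Real.exp (-0.42) = Real.exp (-0.02) ^ 21 := by
    rw [← Real.exp_nat_mul]
    norm_num
  rw [h2]
  calc (0.65 : ℝ) ≤ (-0.02 + 1) ^ 21 := by norm_num
    _ ≤ Real.exp (-0.02) ^ 21 := by gcongr

lemma poly_a {p ξ : ℝ} (hp : 0 ≤ p) (hξ : 0 < ξ) (hξ2 : ξ ≤ 1 / 2) (hpξ : p ≤ 0.7389 * ξ) :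
    p + p * ξ ^ 2 + ξ ^ 2 - 1.5 * p * ξ - 1 / 2 + (1.90987 * p ^ 2 * ξ - 0.8014 * p * ξ + 0.0382) ≤ 0 := by
  have h1 : p ^ 2 * ξ ≤ 0.7389 * p * ξ ^ 2 := by
    have : p * p * ξ ≤ p * (0.7389 * ξ) * ξ := by gcongr
    linarith [this, (by ring : p * p * ξ = p ^ 2 * ξ), (by ring : p * (0.7389 * ξ) * ξ = 0.7389 * p * ξ ^ 2)]
  have h2 : 0 ≤ 1 - 2.3014 * ξ + 2.4113 * ξ ^ 2 := by nlinarith [sq_nonneg (ξ - 0.4772)]
  have h3 : p * (1 - 2.3014 * ξ + 2.4113 * ξ ^ 2) ≤ 0.7389 * ξ * (1 - 2.3014 * ξ + 2.4113 * ξ ^ 2) := by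
    gcongr
  have h4 : 0.7389 * ξ * (1 - 2.3014 * ξ + 2.4113 * ξ ^ 2) ≤ 0.4618 - ξ ^ 2 := by
    nlinarith [mul_nonneg (sub_nonneg.2 hξ2) (sq_nonneg ξ), mul_nonneg (sub_nonneg.2 hξ2) hξ.le]
  nlinarith

lemma poly_b {p ξ : ℝ} (hp : 0 ≤ p) (hξ : 0 < ξ) (hξ2 : ξ ≤ 1 / 2) (hpξ : p ≤ 0.7389 * ξ) :
    ξ ^ 2 + 3.6986 * p * ξ - p * ξ ^ 2 - p * (1 + p) / (1 + p ^ 2) ≤ 0.4618 := by
  have h1 : ξ ^ 2 + 3.6986 * p * ξ - p * ξ ^ 2 ≤ 1 / 4 + 1.8493 * p - 0.25 * p := by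
    have hp1 : p ≤ 0.37 := by linarith
    nlinarith [mul_nonneg hp (sub_nonneg.2 hξ2)]
  have h2 : 0.25 + 1.5993 * p - 0.4618 ≤ p * (1 + p) / (1 + p ^ 2) := by
    rw [le_div_iff₀ (by positivity)]
    have hp1 : p ≤ 0.37 := by linarith
    nlinarith [mul_nonneg hp (sub_nonneg.2 hp1), mul_nonneg hp (mul_nonneg hp (sub_nonneg.2 hp1))]
  linarith

/-- the far region -/
lemma region {y ξ : ℝ} (hy : 0 < y) (hy2 : y ≤ 0.483) (hξ : 0 < ξ) (hξ2 : ξ ≤ 1 / 2)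
    (hu : y ≤ 0.65 * (y ^ 2 + ξ ^ 2)) : |UU y ξ| ≤ UU y y - 0.01 / y := by
  have hy3 : y ≤ 0.1848 := by
    by_contra hcon
    push Not at hcon
    have : ξ ^ 2 ≤ 1 / 4 := by nlinarith
    nlinarith [mul_nonneg (sub_nonneg.2 hcon.le) (sub_nonneg.2 hy2)]
  have hd := UU_diag hy hy3
  have hyξ : y ≤ 0.7389 * ξ ^ 2 := by nlinarith
  set p := y / ξ with hp
  have hpy : y = p * ξ := by rw [hp]; field_simp
  have hp0 : 0 < p := by positivity
  have hpξ : p ≤ 0.7389 * ξ := by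
    rw [hp, div_le_iff₀ hξ]
    nlinarith
  have ha := poly_a hp0.le hξ hξ2 hpξ
  have hb := poly_b hp0.le hξ hξ2 hpξ
  obtain ⟨ha1, ha2⟩ := arg_bounds hy hξ
  set s := y ^ 2 + ξ ^ 2 with hs
  have hs0 : 0 < s := by positivity
  have hsp : s = ξ ^ 2 * (1 + p ^ 2) := by rw [hs, hpy]; ring
  have hI := Psi_inv_im_le (ξ := ξ) hy
  rw [← hs] at hI
  have hR := PsiR_trans (u := y / s) (by positivity)
  have hR2 := PsiR_le (u := 1 / (y / s)) (by
    rw [one_div_div, le_div_iff₀ hy]; nlinarith)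
  have hlog : Real.log (y / s) ≤ -0.42 := by
    refine le_trans (Real.log_le_log (by positivity) ?_) log065
    rw [div_le_iff₀ hs0]; linarith
  have hR3 : PsiR (y / s) ≤ π * s / (12 * y) - π * y / (12 * s) - 0.21 + 0.0000901 := by
    rw [hR]
    have e1 : π / (12 * (y / s)) = π * s / (12 * y) := by field_simp
    have e2 : π * (y / s) / 12 = π * y / (12 * s) := by field_simp
    rw [e1, e2]
    linarith
  have hT := UU_trans (ξ := ξ) hy
  rw [← hs] at hT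
  have hpi1 := Real.pi_gt_d6
  have hpi2 := Real.pi_lt_d6
  rw [abs_le] at hI
  have hξ0 : ξ ≠ 0 := hξ.ne'
  have hκ1 : y * ξ / s = p / (1 + p ^ 2) := by rw [hsp, hpy]; field_simp
  have hκ2 : y * y / s = p ^ 2 / (1 + p ^ 2) := by rw [hsp, hpy]; field_simp
  have hκ1' : p / (1 + p ^ 2) ≤ p := div_le_self hp0.le (by nlinarith)
  have hκ2' : 0 ≤ p ^ 2 / (1 + p ^ 2) := by positivity
  have hκ3 : p * (1 + p) / (1 + p ^ 2) = p / (1 + p ^ 2) + p ^ 2 / (1 + p ^ 2) := by ring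
  have hss : s = p * ξ * y + ξ ^ 2 := by rw [hs, hpy]; ring
  set T := π / 12 with hTdef
  have hT1 : 0.261799 ≤ T := by rw [hTdef]; linarith
  have hT2 : T ≤ 0.2618 := by rw [hTdef]; linarith
  have hpi12 : π = 12 * T := by rw [hTdef]; ring
  have hpos1 : 0 < p ^ 2 * ξ := by positivity
  have hpos2 : 0 < p * ξ := by positivity
  have hTp1 : 1 / 2 * (p ^ 2 * ξ) ≤ (1.90987 * T) * (p ^ 2 * ξ) := by gcongr; linarith
  have hTp2 : (0.8014 * T) * (p * ξ) ≤ 0.2098198 * (p * ξ) := by gcongr; linarith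
  have hTa := mul_nonneg (by linarith : 0 ≤ T) (sub_nonneg.2 ha)
  have hTb := mul_nonneg (by linarith : 0 ≤ T) (sub_nonneg.2 hb)
  have hTκ1 := mul_nonneg (by linarith : 0 ≤ T) (sub_nonneg.2 hκ1')
  have hTκ2 := mul_nonneg (by linarith : 0 ≤ T) hκ2'
  rw [abs_le]
  constructor
  · have hD : 0 ≤ (π / (24 * y) + π * y / 12 - π / 8 - 0.0000901 - 0.01 / y) -
        (-(π * ξ / (12 * s)) - π * ξ / 12 + π / 4 + π * s / (12 * y) - π * y / (12 * s) - 0.21 + 0.0000901) := by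
      have e : y * ((π / (24 * y) + π * y / 12 - π / 8 - 0.0000901 - 0.01 / y) -
        (-(π * ξ / (12 * s)) - π * ξ / 12 + π / 4 + π * s / (12 * y) - π * y / (12 * s) - 0.21 + 0.0000901))
          = T * (1 / 2 + y * y - 1.5 * y + y * ξ / s + y * ξ - 3 * y - s + y * y / s) +
            0.2098198 * y - 0.01 := by
        rw [hpi12]
        field_simp
        ring
      refine nonneg_of_mul_nonneg_right ?_ hy
      rw [e, hκ1, hκ2]
      have e2 : T * (1 / 2 + y * y - 1.5 * y + p / (1 + p ^ 2) + y * ξ - 3 * y - s +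
            p ^ 2 / (1 + p ^ 2)) + 0.2098198 * y - 0.01 =
            T * (0.4618 - (ξ ^ 2 + 3.6986 * p * ξ - p * ξ ^ 2 - p * (1 + p) / (1 + p ^ 2))) +
            (0.2098198 * (p * ξ) - 0.8014 * T * (p * ξ)) + (0.0382 * T - 0.01) := by
        rw [hκ3, hss, hpy]
        ring
      rw [e2]
      linarith
    linarith [hI.1]
  · have hD : 0 ≤ (π / (24 * y) + π * y / 12 - π / 8 - 0.0000901 - 0.01 / y) -
        (π * ξ / (12 * s) + π * ξ / 12 - π / 4 + p / 2 + π * s / (12 * y) - π * y / (12 * s) - 0.21 + 0.0000901) := by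
      have e : y * ((π / (24 * y) + π * y / 12 - π / 8 - 0.0000901 - 0.01 / y) -
        (π * ξ / (12 * s) + π * ξ / 12 - π / 4 + p / 2 + π * s / (12 * y) - π * y / (12 * s) - 0.21 + 0.0000901))
          = T * (1 / 2 + y * y - 1.5 * y - y * ξ / s - y * ξ + 3 * y - s + y * y / s) - p / 2 * y +
            0.2098198 * y - 0.01 := by
        rw [hpi12]
        field_simp
        ring
      refine nonneg_of_mul_nonneg_right ?_ hy
      rw [e, hκ1, hκ2]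
      have e2 : T * (1 / 2 + y * y - 1.5 * y - p / (1 + p ^ 2) - y * ξ + 3 * y - s +
            p ^ 2 / (1 + p ^ 2)) - p / 2 * y + 0.2098198 * y - 0.01 =
            T * (0 - (p + p * ξ ^ 2 + ξ ^ 2 - 1.5 * p * ξ - 1 / 2 +
              (1.90987 * p ^ 2 * ξ - 0.8014 * p * ξ + 0.0382))) +
            T * (p - p / (1 + p ^ 2)) + T * (p ^ 2 / (1 + p ^ 2)) +
            (1.90987 * T * (p ^ 2 * ξ) - 1 / 2 * (p ^ 2 * ξ)) +
            (0.2098198 * (p * ξ) - 0.8014 * T * (p * ξ)) + (0.0382 * T - 0.01) := by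
        rw [hss, hpy]
        ring
      rw [e2]
      linarith
    linarith [hI.2]

end Pool.Agent.N809.DA
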