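import Pool.Agent.N809.DA.Num

/-!
# Existence of the saddle point
-/

set_option autoImplicit false

namespace Pool.Agent.N809.DA

open Complex Finset Filter Topology
open scoped Real

lemma EE_differentiableAt {w : ℂ} (hw : 0 < w.re) : DifferentiableAt ℂ EE w := by
  unfold EE
  have h1 : DifferentiableAt ℂ (fun w : ℂ => cexp (-(2 * π * w))) w := by fun_prop
  have h2 : DifferentiableAt ℂ phi (cexp (-(2 * π * w))) :=
    phi_differentiable.differentiableAt (Metric.isOpen_ball.mem_nhds (by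
      rw [mem_ball_zero_iff]
      exact norm_q_lt hw))
  have h3 : DifferentiableAt ℂ (fun w : ℂ => phi (cexp (-(2 * π * w)))) w :=
    DifferentiableAt.comp (g := phi) w h2 h1
  exact h1.mul h3

lemma norm_EE_le' {w : ℂ} (hw : 1.72 ≤ w.re) :
    ‖EE w‖ ≤ 1.001 * Real.exp (-(2 * π * w.re)) := by
  have h := norm_EE_le (w := w) (r := 0.000022) (e172 hw) (by norm_num)
  refine h.trans ?_
  rw [div_eq_mul_inv, mul_comm]
  have := Real.exp_pos (-(2 * π * w.re))
  gcongr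
  norm_num

/-- the function whose root is the inverse of the saddle point -/
noncomputable def FF (ρ : ℝ) (h : ℂ) : ℂ :=
  (h - 3 / π) ^ 2 + (1 - 9 / π ^ 2) + ρ * I - 24 * h ^ 2 * EE h

lemma pi_bounds : (0.95492 : ℝ) < 3 / π ∧ 3 / π < 0.95494 ∧ 0.088 < 1 - 9 / π ^ 2 ∧
    1 - 9 / π ^ 2 < 0.0882 := by
  have h1 := Real.pi_gt_d6
  have h2 := Real.pi_lt_d6
  have hpos := Real.pi_pos
  refine ⟨?_, ?_, ?_, ?_⟩
  · rw [lt_div_iff₀ hpos]; nlinarith
  · rw [div_lt_iff₀ hpos]; nlinarith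
  · have : 9 / π ^ 2 < 0.912 := by
      rw [div_lt_iff₀ (by positivity)]; nlinarith
    linarith
  · have : 0.9118 < 9 / π ^ 2 := by
      rw [lt_div_iff₀ (by positivity)]; nlinarith
    linarith

/-- the correction term is small -/
lemma corr_le {h : ℂ} (hre : 1.73 ≤ h.re) (him : |h.im| ≤ h.re) : ‖24 * h ^ 2 * EE h‖ ≤ 0.003 := by
  have h1 := norm_EE_le' (w := h) (by linarith)
  have h2 : ‖h‖ ^ 2 ≤ 2 * h.re ^ 2 := by
    rw [← Complex.normSq_eq_norm_sq, Complex.normSq_apply]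
    have : h.im ^ 2 ≤ h.re ^ 2 := by
      rw [← sq_abs h.im]
      exact pow_le_pow_left₀ (abs_nonneg _) him 2
    nlinarith
  rw [norm_mul, norm_mul, norm_pow]
  have h24 : ‖(24 : ℂ)‖ = 24 := by simp
  rw [h24]
  have h3 := X_sq_exp_le hre
  have h4 := Real.exp_pos (-(2 * π * h.re))
  calc 24 * ‖h‖ ^ 2 * ‖EE h‖ ≤ 24 * (2 * h.re ^ 2) * (1.001 * Real.exp (-(2 * π * h.re))) := by
        gcongr
    _ = 48.048 * (h.re ^ 2 * Real.exp (-(2 * π * h.re))) := by ring
    _ ≤ 48.048 * 0.0000616 := by gcongr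
    _ ≤ 0.003 := by norm_num

lemma exists_pq {ρ : ℝ} (hρ : 4 / 3 ≤ ρ) : ∃ p q : ℝ, 0.7889 ≤ p ∧ 0.8429 ≤ q ∧ 0 ≤ q - p ∧
    q - p ≤ 0.05407 ∧ q ^ 2 - p ^ 2 = 1 - 9 / π ^ 2 ∧ 2 * p * q = ρ ∧ 4 / 3 ≤ p ^ 2 + q ^ 2 := by
  obtain ⟨_, _, hc1, hc2⟩ := pi_bounds
  set c := 1 - 9 / π ^ 2 with hc
  set R := Real.sqrt (ρ ^ 2 + c ^ 2) with hR
  have hR2 : R ^ 2 = ρ ^ 2 + c ^ 2 := Real.sq_sqrt (by positivity)
  have hRρ : ρ ≤ R := Real.le_sqrt_of_sq_le (by nlinarith)
  set p := Real.sqrt ((R - c) / 2) with hp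
  set q := Real.sqrt ((R + c) / 2) with hq
  have hp2 : p ^ 2 = (R - c) / 2 := Real.sq_sqrt (by linarith)
  have hq2 : q ^ 2 = (R + c) / 2 := Real.sq_sqrt (by linarith)
  have hp0 : 0 ≤ p := Real.sqrt_nonneg _
  have hq0 : 0 ≤ q := Real.sqrt_nonneg _
  have hpl : 0.7889 ≤ p := by
    apply Real.le_sqrt_of_sq_le
    norm_num
    linarith
  have hql : 0.8429 ≤ q := by
    apply Real.le_sqrt_of_sq_le
    norm_num
    linarith
  have hdiff : q ^ 2 - p ^ 2 = c := by rw [hp2, hq2]; ring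
  have hqp : 0 ≤ q - p := by
    by_contra h
    push Not at h
    nlinarith
  refine ⟨p, q, hpl, hql, hqp, ?_, hdiff, ?_, ?_⟩
  · have h1 : (q - p) * (q + p) = c := by rw [← hdiff]; ring
    have h2 : (q - p) * 1.6318 ≤ (q - p) * (q + p) := by
      apply mul_le_mul_of_nonneg_left _ hqp
      linarith
    nlinarith
  · have h1 : (2 * p * q) ^ 2 = ρ ^ 2 := by
      have : (2 * p * q) ^ 2 = 4 * p ^ 2 * q ^ 2 := by ring
      rw [this, hp2, hq2]
      nlinarith
    have h2 : 0 ≤ 2 * p * q := by positivity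
    have h3 : 0 ≤ ρ := by linarith
    exact (pow_left_inj₀ h2 h3 two_ne_zero).1 h1
  · rw [hp2, hq2]
    linarith

/-- the saddle point: the data `X`, `Y` with `w = 1 / (X - i Y)` -/
theorem exists_saddle {ν : ℝ} (hν : 1 / 18 ≤ ν) : ∃ X Y : ℝ, 1.738 ≤ X ∧ 0.837 ≤ Y ∧
    0.89 ≤ X - Y ∧ X - Y ≤ 0.966 ∧ EE (((X : ℂ) - Y * I)⁻¹) = -(ν * I) := by
  obtain ⟨p, q, hp, hq, hqp, hqp', hdiff, hpq, hR⟩ := exists_pq (ρ := 24 * ν) (by linarith)
  obtain ⟨hc1, hc2, hc3, hc4⟩ := pi_bounds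
  set z₀ : ℂ := (p : ℂ) - q * I with hz₀
  set h₀ : ℂ := ((3 / π : ℝ) : ℂ) + z₀ with hh₀
  have hz2 : z₀ ^ 2 = -((1 - 9 / π ^ 2 : ℝ) : ℂ) - ((24 * ν : ℝ) : ℂ) * I := by
    rw [hz₀, ← hdiff, ← hpq]
    push_cast
    linear_combination (q : ℂ) ^ 2 * I_sq
  have hre0 : h₀.re = 3 / π + p := by
    rw [hh₀, hz₀]
    simp
  have him0 : h₀.im = -q := by
    rw [hh₀, hz₀]
    simp
  -- points close to `h₀`
  have hnear : ∀ h : ℂ, ‖h - h₀‖ ≤ 0.005 → |h.re - (3 / π + p)| ≤ 0.005 ∧ |h.im + q| ≤ 0.005 := by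
    intro h hh
    constructor
    · have := Complex.abs_re_le_norm (h - h₀)
      rw [Complex.sub_re, hre0] at this
      linarith
    · have := Complex.abs_im_le_norm (h - h₀)
      rw [Complex.sub_im, him0, sub_neg_eq_add] at this
      linarith
  have hsmall : ∀ h : ℂ, ‖h - h₀‖ ≤ 0.005 → ‖24 * h ^ 2 * EE h‖ ≤ 0.003 := by
    intro h hh
    obtain ⟨h1, h2⟩ := hnear h hh
    rw [abs_le] at h1 h2
    apply corr_le
    · linarith
    · rw [abs_le]
      constructor <;> linarith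
  have hFF : ∀ h : ℂ, FF (24 * ν) h = (h - h₀) * (h - h₀ + 2 * z₀) - 24 * h ^ 2 * EE h := by
    intro h
    have e1 : (h - h₀) * (h - h₀ + 2 * z₀) = (h - 3 / π) ^ 2 - z₀ ^ 2 := by
      rw [hh₀]
      push_cast
      ring
    rw [e1, hz2]
    unfold FF
    push_cast
    ring
  have hznorm : 1.1545 ≤ ‖z₀‖ := by
    have h1 : ‖z₀‖ ^ 2 = p ^ 2 + q ^ 2 := by
      rw [← Complex.normSq_eq_norm_sq, Complex.normSq_apply, hz₀]
      simp
      ring
    nlinarith [norm_nonneg z₀]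
  -- lower bound on the circle
  have hcirc : ∀ h ∈ Metric.sphere h₀ 0.005, 0.0085 ≤ ‖FF (24 * ν) h‖ := by
    intro h hh
    rw [mem_sphere_iff_norm] at hh
    rw [hFF]
    have h1 := hsmall h hh.le
    have h2 : 0.005 * 2.304 ≤ ‖(h - h₀) * (h - h₀ + 2 * z₀)‖ := by
      rw [norm_mul, hh]
      have h3 : 2.304 ≤ ‖h - h₀ + 2 * z₀‖ := by
        have h4 := norm_sub_le (h - h₀ + 2 * z₀) (h - h₀)
        rw [add_sub_cancel_left, hh, norm_mul] at h4
        have : ‖(2 : ℂ)‖ = 2 := by simp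
        rw [this] at h4
        linarith
      gcongr
    have h5 := norm_sub_norm_le ((h - h₀) * (h - h₀ + 2 * z₀)) (24 * h ^ 2 * EE h)
    linarith
  have hcenter : ‖FF (24 * ν) h₀‖ ≤ 0.003 := by
    rw [hFF, sub_self, zero_mul, zero_sub, norm_neg]
    exact hsmall h₀ (by rw [sub_self, norm_zero]; norm_num)
  -- existence of a root
  obtain ⟨h, hh, hroot⟩ : ∃ h ∈ Metric.closedBall h₀ 0.005, FF (24 * ν) h = 0 := by
    by_contra hcon
    push Not at hcon
    have hdiffF : ∀ h ∈ Metric.closedBall h₀ (0.005 : ℝ), DifferentiableAt ℂ (FF (24 * ν)) h := by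
      intro h hh
      rw [mem_closedBall_iff_norm] at hh
      have h1 := (hnear h hh).1
      rw [abs_le] at h1
      have := EE_differentiableAt (w := h) (by linarith)
      unfold FF
      fun_prop
    have hd : DiffContOnCl ℂ (fun h => (FF (24 * ν) h)⁻¹) (Metric.ball h₀ 0.005) := by
      apply DifferentiableOn.diffContOnCl
      rw [closure_ball _ (by norm_num)]
      intro h hh
      exact ((hdiffF h hh).inv (hcon h hh)).differentiableWithinAt
    have hb := Complex.norm_le_of_forall_mem_frontier_norm_le (U := Metric.ball h₀ 0.005)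
      Metric.isBounded_ball hd (C := 1 / 0.0085) (by
        intro z hz
        rw [frontier_ball _ (by norm_num)] at hz
        have h1 := hcirc z hz
        rw [norm_inv, one_div]
        exact inv_anti₀ (by norm_num) h1)
      (z := h₀) (subset_closure (Metric.mem_ball_self (by norm_num)))
    rw [norm_inv] at hb
    have hpos : 0 < ‖FF (24 * ν) h₀‖ :=
      norm_pos_iff.2 (hcon h₀ (Metric.mem_closedBall_self (by norm_num)))
    have h2 : 1 / 0.003 ≤ ‖FF (24 * ν) h₀‖⁻¹ := by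
      rw [one_div]
      exact inv_anti₀ hpos hcenter
    norm_num at h2 hb
    linarith
  rw [mem_closedBall_iff_norm] at hh
  obtain ⟨h1, h2⟩ := hnear h hh
  rw [abs_le] at h1 h2
  refine ⟨h.re, -h.im, by linarith, by linarith, by linarith, by linarith, ?_⟩
  have hheq : ((h.re : ℂ) - ((-h.im : ℝ) : ℂ) * I) = h := by
    push_cast
    rw [neg_mul, sub_neg_eq_add, Complex.re_add_im]
  rw [hheq]
  have hpos : 0 < h.re := by linarith
  have htr := EE_trans (w := h⁻¹) (inv_re_pos hpos)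
  rw [inv_inv] at htr
  rw [htr]
  unfold FF at hroot
  have hpi : (π : ℂ) ≠ 0 := by exact_mod_cast Real.pi_ne_zero
  have e : (h - 3 / π) ^ 2 = h ^ 2 - 6 * h / π + 9 / π ^ 2 := by
    field_simp
    ring
  rw [e] at hroot
  have e2 : h / (4 * π) = (6 * h / π) / 24 := by
    field_simp
    ring
  rw [e2]
  push_cast at hroot
  linear_combination (1 / 24 : ℂ) * hroot

end Pool.Agent.N809.DA
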