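import Pool.Agent.N809.DA.Local

/-!
# The sign of `Re E` on the vertical line through the saddle point
-/

set_option autoImplicit false

namespace Pool.Agent.N809.DA

open Complex Finset Filter Topology
open scoped Real

lemma re_EE {w : ℂ} (hw : 0 < w.re) : ∃ r : ℝ, |r| ≤ 24 * normSq w * ‖EE w⁻¹‖ ∧
    24 * (normSq w) ^ 2 * (EE w).re =
      (normSq w) ^ 2 - (1 + 6 * w.re / π) * normSq w + 2 * w.re ^ 2 - r := by
  have hw0 : w ≠ 0 := by
    rintro rfl
    simp at hw
  set s := normSq w with hs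
  have hs0 : 0 < s := normSq_pos.2 hw0
  have hss : s = w.re ^ 2 + w.im ^ 2 := by rw [hs, normSq_apply]; ring
  refine ⟨24 * s ^ 2 * ((w⁻¹) ^ 2 * EE w⁻¹).re, ?_, ?_⟩
  · rw [abs_mul, abs_of_pos (by positivity)]
    have h1 := Complex.abs_re_le_norm ((w⁻¹) ^ 2 * EE w⁻¹)
    have h2 : ‖(w⁻¹) ^ 2 * EE w⁻¹‖ = s⁻¹ * ‖EE w⁻¹‖ := by
      rw [norm_mul, norm_pow, norm_inv, inv_pow, ← Complex.normSq_eq_norm_sq]
    rw [h2] at h1
    calc 24 * s ^ 2 * |((w⁻¹) ^ 2 * EE w⁻¹).re| ≤ 24 * s ^ 2 * (s⁻¹ * ‖EE w⁻¹‖) := by gcongr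
      _ = 24 * s * ‖EE w⁻¹‖ := by field_simp
  · have h1 := congrArg Complex.re (EE_trans hw)
    have h3 : (w⁻¹).re = w.re / s := Complex.inv_re w
    have h4 : (w⁻¹).im = -w.im / s := Complex.inv_im w
    have e1 : (((w⁻¹) ^ 2 + 1) / 24 : ℂ).re = ((w.re / s) ^ 2 - (-w.im / s) ^ 2 + 1) / 24 := by
      have h24 : (((w⁻¹) ^ 2 + 1) / 24 : ℂ) = ((w⁻¹) ^ 2 + 1) / ((24 : ℝ) : ℂ) := by norm_num
      rw [h24, Complex.div_ofReal_re, Complex.add_re, Complex.one_re, pow_two, Complex.mul_re, h3, h4]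
      ring
    have e2 : (w⁻¹ / (4 * π) : ℂ).re = (w.re / s) / (4 * π) := by
      have h24 : (w⁻¹ / (4 * π) : ℂ) = w⁻¹ / ((4 * π : ℝ) : ℂ) := by push_cast; rfl
      rw [h24, Complex.div_ofReal_re, h3]
    rw [Complex.sub_re, Complex.sub_re, e1, e2] at h1
    rw [h1]
    have hpi := Real.pi_ne_zero
    have him : w.im ^ 2 = s - w.re ^ 2 := by rw [hss]; ring
    have e3 : (-w.im / s) ^ 2 = (s - w.re ^ 2) / s ^ 2 := by rw [div_pow, neg_sq, him]
    rw [e3]
    field_simp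
    ring

lemma Hinv {X Y B : ℝ} (hS : SP X Y B) : ((X : ℂ) - Y * I)⁻¹ =
    ((X / B ^ 2 : ℝ) : ℂ) + ((Y / B ^ 2 : ℝ) : ℂ) * I := by
  have hB := hS.hB
  have hB0 := hS.hB0
  have h1 : ((X : ℂ) - Y * I) ≠ 0 := norm_ne_zero_iff.1 (by rw [norm_H hS]; exact hB0.ne')
  have h2 : (B : ℂ) ^ 2 = (X : ℂ) ^ 2 + (Y : ℂ) ^ 2 := by exact_mod_cast hB
  have h3 : (B : ℂ) ≠ 0 := by exact_mod_cast hB0.ne'
  have h4 : ((X : ℂ) - Y * I) * ((X : ℂ) + Y * I) = (B : ℂ) ^ 2 := by
    rw [h2]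
    linear_combination (-(Y : ℂ) ^ 2) * I_sq
  apply inv_eq_of_mul_eq_one_right
  push_cast
  field_simp
  linear_combination h4

lemma Hinv_re {X Y B : ℝ} (hS : SP X Y B) : (((X : ℂ) - Y * I)⁻¹).re = X / B ^ 2 := by
  rw [Hinv hS, Complex.add_re, Complex.ofReal_re, Complex.mul_I_re, Complex.ofReal_im]
  ring

/-- the saddle point equation, real part -/
lemma saddle_q {X Y B : ℝ} (hS : SP X Y B) (hE : (EE ((X : ℂ) - Y * I)⁻¹).re = 0) :
    |1 / B ^ 2 - 1 - 6 * (X / B ^ 2) / π + 2 * (X / B ^ 2) * X| ≤ 0.00047 := by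
  have hB0 := hS.hB0
  have hX := hS.hX
  have hwre := Hinv_re hS
  set w : ℂ := ((X : ℂ) - Y * I)⁻¹ with hw
  have hpos : 0 < w.re := by rw [hwre]; positivity
  obtain ⟨r, hr1, hr2⟩ := re_EE hpos
  have hns : normSq w = 1 / B ^ 2 := by
    rw [Complex.normSq_eq_norm_sq, hw, norm_inv, norm_H hS]
    simp
  have hinv : w⁻¹ = (X : ℂ) - Y * I := by rw [hw, inv_inv]
  have hre : ((X : ℂ) - Y * I).re = X := by simp
  have h1 := norm_EE_le' (w := (X : ℂ) - Y * I) (by rw [hre]; linarith)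
  rw [hre] at h1
  have h2 := e1738 hX
  rw [hE, hwre, hns] at hr2
  rw [hinv, hns] at hr1
  have h3 : |r| ≤ 0.00047 * (1 / B ^ 2) := by
    refine hr1.trans ?_
    have : ‖EE ((X : ℂ) - Y * I)‖ ≤ 0.0000195195 := by
      refine h1.trans ?_
      linarith
    have hb : 0 < 1 / B ^ 2 := by positivity
    nlinarith
  have h4 : r = (1 / B ^ 2) * (1 / B ^ 2 - 1 - 6 * (X / B ^ 2) / π + 2 * (X / B ^ 2) * X) := by
    have h5 : r = (1 / B ^ 2) ^ 2 - (1 + 6 * (X / B ^ 2) / π) * (1 / B ^ 2) + 2 * (X / B ^ 2) ^ 2 := by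
      linarith
    rw [h5]
    have hpi := Real.pi_ne_zero
    field_simp
    ring
  have hb : 0 < 1 / B ^ 2 := by positivity
  rw [h4, abs_mul, abs_of_pos hb, mul_comm] at h3
  exact le_of_mul_le_mul_right h3 hb

lemma y_le {X Y B : ℝ} (hS : SP X Y B) : X / B ^ 2 ≤ 0.483 := by
  have hB0 := hS.hB0
  rw [div_le_iff₀ (by positivity), hS.hB]
  have := hS.hX
  have := hS.hY
  nlinarith

/-- to the right of the saddle point `Re E` is negative as long as `Re w⁻¹ ≥ 0.65` -/
lemma re_neg {X Y B : ℝ} (hS : SP X Y B) (hE : (EE ((X : ℂ) - Y * I)⁻¹).re = 0) {w : ℂ}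
    (hw : w.re = X / B ^ 2) (hs : 1.0042 * (1 / B ^ 2) ≤ normSq w)
    (hu : 0.65 * normSq w ≤ w.re) : (EE w).re ≤ 0 := by
  have hB0 := hS.hB0
  have hX := hS.hX
  have hq := saddle_q hS hE
  have hy := y_le hS
  set q := 1 / B ^ 2 - 1 - 6 * (X / B ^ 2) / π + 2 * (X / B ^ 2) * X with hqdef
  have hpos : 0 < w.re := by rw [hw]; positivity
  obtain ⟨r, hr1, hr2⟩ := re_EE hpos
  set s := normSq w with hsdef
  set s0 := 1 / B ^ 2 with hs0def
  have hs0 : 0 < s0 := by positivity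
  have hspos : 0 < s := by linarith
  have hyX : X / B ^ 2 = X * s0 := by rw [hs0def]; ring
  rw [← hw] at hqdef hy
  rw [hyX] at hw
  have hinv : (w⁻¹).re = w.re / s := Complex.inv_re w
  set y := w.re with hydef
  set u := y / s with hudef
  have hyu : y = u * s := by rw [hudef]; field_simp
  have hu65 : 0.65 ≤ u := by rw [hudef, le_div_iff₀ hspos]; linarith
  have huX : 1.0042 * u ≤ X := by
    have : 1.0042 * u * s ≤ X * s := by
      have : X * (1.0042 * s0) ≤ X * s := by gcongr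
      nlinarith
    exact le_of_mul_le_mul_right this hspos
  -- bound for the exponential
  have hkey : ∀ e : ℝ, Real.exp (-(2 * π * u)) ≤ e → e ≤ 0.017 → 
      25.3 * e + 0.00047 ≤ 0.9 * (1 - u / X) → (EE w).re ≤ 0 := by
    intro e he1 he2 he3
    have h1 := norm_EE_le (w := w⁻¹) (r := 0.017) (by rw [hinv]; exact he1.trans he2) (by norm_num)
    rw [hinv] at h1
    have h2 : 24 * ‖EE w⁻¹‖ ≤ 25.3 * e := by
      have : Real.exp (-(2 * π * u)) / (1 - 3 * 0.017) ≤ e * 1.0538 := by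
        rw [div_le_iff₀ (by norm_num)]
        have := Real.exp_pos (-(2 * π * u))
        nlinarith
      have he0 : 0 < e := (Real.exp_pos _).trans_le he1
      linarith
    rw [abs_le] at hr1 hq
    -- K
    have hK : 0.9 ≤ 2 * y * X - s := by
      have e1 : 2 * y * X = q - s0 + 1 + 6 * y / π := by rw [hqdef]; ring
      have e2 : s0 ≤ 0.5754 * y := by rw [hw]; nlinarith
      have e3 : s ≤ 1.53847 * y := by nlinarith
      have e4 : 1.9098 * y ≤ 6 * y / π := by
        rw [le_div_iff₀ Real.pi_pos]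
        have := Real.pi_lt_d6
        nlinarith
      rw [e1]
      linarith [hq.1]
    have h5 : 24 * s ^ 2 * (EE w).re = -(s - s0) * (2 * y * X - s) + s * q - r := by
      rw [hr2]
      have e1 : 1 + 6 * y / π = s0 + 2 * y * X - q := by rw [hqdef]; ring
      rw [e1, hw]
      ring
    have h6 : s - s0 = s * (1 - u / X) := by
      have hX0 : X ≠ 0 := by linarith
      have : s0 = s * (u / X) := by
        rw [mul_div_assoc', eq_div_iff hX0, ← mul_comm u s, ← hyu, hw]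
        ring
      rw [this]
      ring
    have h7 : 0 ≤ 1 - u / X := by
      have he0 : 0 < e := (Real.exp_pos _).trans_le he1
      linarith
    have h8 : s * (1 - u / X) * 0.9 ≤ (s - s0) * (2 * y * X - s) := by
      rw [h6]
      gcongr
    have h9 : 24 * s ^ 2 * (EE w).re ≤ 0 := by
      rw [h5]
      have h10 : s * q ≤ s * 0.00047 := by
        have := hq.2
        gcongr
      have h11 : s * (24 * ‖EE w⁻¹‖) ≤ s * (25.3 * e) := by gcongr
      have h12 : s * (25.3 * e + 0.00047) ≤ s * (0.9 * (1 - u / X)) := by gcongr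
      linarith [hr1.1]
    have h10 : 0 < 24 * s ^ 2 := by positivity
    by_contra hcon
    push Not at hcon
    have := mul_pos h10 hcon
    linarith
  have hX0 : 0 < X := by linarith
  have hub : ∀ b : ℝ, u ≤ b → u / X ≤ b / 1.738 := by
    intro b hb
    have h0 : 0 < u := by linarith
    calc u / X ≤ u / 1.738 := by gcongr
      _ ≤ b / 1.738 := by gcongr
  rcases le_or_gt u 0.8 with h | h
  · apply hkey 0.017 (e065 hu65) le_rfl
    have := hub _ h
    linarith
  rcases le_or_gt u 1.2 with h' | h'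
  · apply hkey 0.0066 (e08 h.le) (by norm_num)
    have := hub _ h'
    linarith
  rcases le_or_gt u 1.6 with h'' | h''
  · apply hkey 0.00055 (e12 h'.le) (by norm_num)
    have := hub _ h''
    linarith
  · apply hkey 0.000044 (e16 h''.le) (by norm_num)
    have : u / X ≤ 1 / 1.0042 := by
      rw [div_le_div_iff₀ hX0 (by norm_num)]
      linarith
    linarith

/-- to the left of the saddle point `Re E` is positive -/
lemma re_pos {X Y B : ℝ} (hS : SP X Y B) (hE : (EE ((X : ℂ) - Y * I)⁻¹).re = 0) {w : ℂ}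
    (hw : w.re = X / B ^ 2) (hs : normSq w ≤ 0.9959 * (1 / B ^ 2)) : 0 ≤ (EE w).re := by
  have hB0 := hS.hB0
  have hX := hS.hX
  have hq := saddle_q hS hE
  have hy := y_le hS
  set q := 1 / B ^ 2 - 1 - 6 * (X / B ^ 2) / π + 2 * (X / B ^ 2) * X with hqdef
  have hpos : 0 < w.re := by rw [hw]; positivity
  obtain ⟨r, hr1, hr2⟩ := re_EE hpos
  have hspos' : 0 < normSq w := normSq_pos.2 (by rintro rfl; simp at hpos)
  set s := normSq w with hsdef
  set s0 := 1 / B ^ 2 with hs0def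
  have hs0 : 0 < s0 := by positivity
  have hyX : X / B ^ 2 = X * s0 := by rw [hs0def]; ring
  rw [← hw] at hqdef hy
  rw [hyX] at hw
  have hinv : (w⁻¹).re = w.re / s := Complex.inv_re w
  set y := w.re with hydef
  have hu : 1.738 ≤ y / s := by
    rw [le_div_iff₀ hspos', hw]
    nlinarith
  have h1 := norm_EE_le' (w := w⁻¹) (by rw [hinv]; linarith)
  rw [hinv] at h1
  have h2 := e1738 hu
  rw [abs_le] at hr1 hq
  have hK : 0.9 ≤ 2 * y * X - s := by
    have e1 : 2 * y * X = q - s0 + 1 + 6 * y / π := by rw [hqdef]; ring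
    have e2 : s0 ≤ 0.5754 * y := by rw [hw]; nlinarith
    have e3 : s ≤ 0.5754 * y := by nlinarith
    have e4 : 1.9098 * y ≤ 6 * y / π := by
      rw [le_div_iff₀ Real.pi_pos]
      have := Real.pi_lt_d6
      nlinarith
    rw [e1]
    linarith [hq.1]
  have h5 : 24 * s ^ 2 * (EE w).re = (s0 - s) * (2 * y * X - s) + s * q - r := by
    rw [hr2]
    have e1 : 1 + 6 * y / π = s0 + 2 * y * X - q := by rw [hqdef]; ring
    rw [e1, hw]
    ring
  have h8 : (0.0041 * s0) * 0.9 ≤ (s0 - s) * (2 * y * X - s) := by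
    have : 0.0041 * s0 ≤ s0 - s := by linarith
    gcongr
    linarith
  have h9 : 0 ≤ 24 * s ^ 2 * (EE w).re := by
    rw [h5]
    have h10 : s * (-0.00047) ≤ s * q := by
      have := hq.1
      gcongr
    have h11 : s * (24 * ‖EE w⁻¹‖) ≤ s * (0.00047) := by
      gcongr
      linarith
    linarith [hr1.2]
  have h10 : 0 < 24 * s ^ 2 := by positivity
  by_contra hcon
  push Not at hcon
  have := mul_neg_of_pos_of_neg h10 hcon
  linarith

end Pool.Agent.N809.DA
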