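import Pool.Agent.N809.DA.Gen

/-!
# The transformation formulas of `E` and `Ψ` under `w ↦ 1 / w`
-/

set_option autoImplicit false

namespace Pool.Agent.N809.DA

open Complex Finset Filter Topology EisensteinSeries
open scoped Real ArithmeticFunction.sigma UpperHalfPlane

/-- `i w` as a point of the upper half plane -/
noncomputable def pt (w : ℂ) (hw : 0 < w.re) : ℍ := ⟨I * w, by simpa using hw⟩

lemma E2_pt (w : ℂ) (hw : 0 < w.re) : E2 (pt w hw) = 1 - 24 * EE w := by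
  rw [E2_eq_tsum_cexp]
  congr 2
  have hz : cexp (2 * ↑π * I * ((pt w hw : ℍ) : ℂ)) = cexp (-(2 * π * w)) := by
    congr 1
    have : ((pt w hw : ℍ) : ℂ) = I * w := rfl
    rw [this]
    linear_combination (2 * π * w : ℂ) * I_sq
  rw [hz]
  have h := tsum_pnat_eq_tsum_succ (f := fun n : ℕ => (σ 1 n : ℂ) * cexp (-(2 * π * w)) ^ n)
  rw [h]
  unfold EE phi
  rw [← tsum_mul_left]
  refine tsum_congr fun k => ?_
  ring

lemma EE_trans {w : ℂ} (hw : 0 < w.re) :
    EE w = ((w⁻¹) ^ 2 + 1) / 24 - w⁻¹ / (4 * π) - (w⁻¹) ^ 2 * EE w⁻¹ := by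
  have hw0 : w ≠ 0 := by
    rintro rfl
    simp at hw
  have hw' : 0 < (w⁻¹).re := by
    rw [Complex.inv_re]
    exact div_pos hw (Complex.normSq_pos.2 hw0)
  have hpi : (π : ℂ) ≠ 0 := by exact_mod_cast Real.pi_ne_zero
  have hE2 := congrFun (E2_slash_action ModularGroup.S) (pt w hw)
  have hS : ModularGroup.S • (pt w hw) = pt w⁻¹ hw' := by
    rw [UpperHalfPlane.modular_S_smul]
    ext
    show (-(I * w))⁻¹ = I * w⁻¹
    rw [inv_neg, mul_inv, inv_I]
    ring
  rw [ModularForm.SL_slash_apply, hS, ModularGroup.denom_S, Pi.sub_apply, Pi.smul_apply, D2_S, E2_pt, E2_pt,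
    riemannZeta_two, smul_eq_mul] at hE2
  have hc : ((pt w hw : ℍ) : ℂ) = I * w := rfl
  rw [hc, show (-2 : ℤ) = -((2 : ℕ) : ℤ) by rfl, zpow_neg, zpow_natCast, mul_pow, I_sq] at hE2
  have h1 : (1 - 24 * EE w⁻¹) * (-1 * w ^ 2)⁻¹ = -(w⁻¹) ^ 2 + 24 * ((w⁻¹) ^ 2 * EE w⁻¹) := by
    rw [mul_inv, inv_pow]
    ring
  have h2 : 1 / (2 * ((π : ℂ) ^ 2 / 6)) * (2 * π * I / (I * w)) = 6 * w⁻¹ / π := by
    field_simp
  rw [h1, h2] at hE2
  have h3 : w⁻¹ / (4 * π) = (6 * w⁻¹ / π) / 24 := by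
    field_simp
    ring
  rw [h3]
  linear_combination (1 / 24 : ℂ) * hE2

lemma inv_re_pos {w : ℂ} (hw : 0 < w.re) : 0 < (w⁻¹).re := by
  rw [Complex.inv_re]
  refine div_pos hw (Complex.normSq_pos.2 ?_)
  rintro rfl
  simp at hw

lemma psi_trans {w : ℂ} (hw : 0 < w.re) :
    Psi w = π * w⁻¹ / 12 - π * w / 12 + Complex.log w / 2 + Psi w⁻¹ := by
  set Φ : ℂ → ℂ := fun w => Psi w - (π * w⁻¹ / 12 - π * w / 12 + Complex.log w / 2 + Psi w⁻¹) with hΦ
  have hd : ∀ w : ℂ, 0 < w.re → HasDerivAt Φ 0 w := by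
    intro w hw
    have hw0 : w ≠ 0 := by
      rintro rfl
      simp at hw
    have hslit : w ∈ Complex.slitPlane := Or.inl hw
    have h1 := hasDerivAt_Psi hw
    have h2 : HasDerivAt (fun w : ℂ => w⁻¹) (-(w ^ 2)⁻¹) w := hasDerivAt_inv hw0
    have h3 := (hasDerivAt_Psi (inv_re_pos hw)).comp w h2
    have h4 := ((h2.const_mul (π : ℂ)).div_const 12).sub (((hasDerivAt_id w).const_mul (π : ℂ)).div_const 12)
    have h5 := (Complex.hasDerivAt_log hslit).div_const 2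
    have h6 := h1.sub ((h4.add h5).add h3)
    refine h6.congr_deriv ?_
    rw [EE_trans hw]
    field_simp
    ring
  have hopen : IsOpen {w : ℂ | 0 < w.re} := isOpen_lt continuous_const Complex.continuous_re
  have hconv : Convex ℝ {w : ℂ | 0 < w.re} := convex_halfSpace_re_gt 0
  have hconst : Φ w = Φ 1 := by
    refine hopen.is_const_of_deriv_eq_zero hconv.isPreconnected ?_ ?_ hw (by simp : (1 : ℂ) ∈ {w : ℂ | 0 < w.re})
    · intro z hz
      exact (hd z hz).differentiableAt.differentiableWithinAt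
    · intro z hz
      exact (hd z hz).deriv
  have h1 : Φ 1 = 0 := by
    simp [hΦ]
  rw [h1] at hconst
  simp only [hΦ] at hconst
  linear_combination hconst

end Pool.Agent.N809.DA
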